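import Pool.Agent.H76K.A
import Pool.Agent.N874.WG.D

/-!
# Conjugate numbers
-/

set_option autoImplicit false
set_option linter.all false

open Polynomial

namespace Pool.Agent.H76K

open Pool.Agent.N874.WG

/-- two elements which are roots of the same integral polynomials -/
def Cj {K L : Type} [CommRing K] [CommRing L] (z : K) (r : L) : Prop :=
  ∀ Q : ℤ[X], aeval z Q = 0 ↔ aeval r Q = 0

theorem cj_of {K L : Type} [Field K] [Field L] [CharZero K] [CharZero L] {z : K} {r : L}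
    (hz : IsIntegral ℚ z) (hr : aeval r (minpoly ℚ z) = 0) : Cj z r := by
  intro Q
  have h1 : aeval z Q = aeval z (Q.map (algebraMap ℤ ℚ)) := (aeval_map_algebraMap ℚ z Q).symm
  have h2 : aeval r Q = aeval r (Q.map (algebraMap ℤ ℚ)) := (aeval_map_algebraMap ℚ r Q).symm
  have h3 : minpoly ℚ z = minpoly ℚ r :=
    minpoly.eq_of_irreducible_of_monic (minpoly.irreducible hz) hr (minpoly.monic hz)
  rw [h1, h2]
  constructor
  · intro h
    have h4 := minpoly.dvd ℚ z h
    rw [h3] at h4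
    obtain ⟨q, hq⟩ := h4
    rw [hq, map_mul, minpoly.aeval, zero_mul]
  · intro h
    have h4 := minpoly.dvd ℚ r h
    rw [← h3] at h4
    obtain ⟨q, hq⟩ := h4
    rw [hq, map_mul, minpoly.aeval, zero_mul]

theorem int_of_tor {K : Type} [Field K] [CharZero K] {z : K} {g : ℤ[X]} (hg : g.Monic)
    (hd : 0 < g.natDegree) {n : ℕ} (hn : 0 < n) (h : aeval z g ^ n = 1) : IsIntegral ℤ z := by
  have hm : (g ^ n - 1).Monic := by
    refine (hg.pow n).sub_of_left ?_
    rw [degree_one, ← natDegree_pos_iff_degree_pos, hg.natDegree_pow]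
    exact Nat.mul_pos hn hd
  refine ⟨g ^ n - 1, hm, ?_⟩
  rw [← aeval_def, map_sub, map_pow, h, map_one, sub_self]

theorem Cj.tor {K L : Type} [CommRing K] [CommRing L] {z : K} {r : L} (h : Cj z r) {g : ℤ[X]}
    {n : ℕ} (h1 : aeval z g ^ n = 1) : aeval r g ^ n = 1 := by
  have h2 := (h (g ^ n - 1)).1 (by rw [map_sub, map_pow, h1, map_one, sub_self])
  rw [map_sub, map_pow, map_one, sub_eq_zero] at h2
  exact h2

theorem exists_cj {K : Type} [Field K] [CharZero K] {z : K} (hz : IsIntegral ℤ z) :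
    ∃ r : ℂ, Cj z r := by
  have hz' : IsIntegral ℚ z := hz.tower_top
  obtain ⟨r, hr⟩ := IsAlgClosed.exists_aeval_eq_zero ℂ (minpoly ℚ z)
    (minpoly.degree_pos hz').ne'
  exact ⟨r, cj_of hz' hr⟩

theorem norm_one {w : ℂ} {n : ℕ} (hn : 0 < n) (h : w ^ n = 1) : ‖w‖ = 1 :=
  Complex.norm_eq_one_of_pow_eq_one h hn.ne'

/-- the resultant vanishes at a number `z` such that `g(z)` and `h(z)` are of absolute value one -/
theorem Rs_complex {g h : ℤ[X]} (hg : 0 < g.natDegree) {r : ℂ} (h1 : ‖aeval r g‖ = 1)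
    (h2 : ‖aeval r h‖ = 1) : aeval r (Rs g h) = 0 := by
  have key : ∀ q : ℤ[X], ‖aeval r q‖ = 1 →
      aeval r q * aeval ((starRingEnd ℂ) r) q = 1 := by
    intro q hq
    have e : aeval ((starRingEnd ℂ) r) q = (starRingEnd ℂ) (aeval r q) := by
      have := Polynomial.hom_eval₂ q (algebraMap ℤ ℂ) (starRingEnd ℂ) r
      rw [aeval_def, aeval_def, this]
      congr 1
      ext a
      simp
    rw [e, Complex.mul_conj, Complex.normSq_eq_norm_sq, hq]
    norm_num
  exact Rs_root hg (key g h1) (key h h2)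

theorem Rs_tor {K : Type} [Field K] [CharZero K] {z : K} {g h : ℤ[X]} (hg : g.Monic)
    (hd : 0 < g.natDegree) {n m : ℕ} (hn : 0 < n) (hm : 0 < m) (h1 : aeval z g ^ n = 1)
    (h2 : aeval z h ^ m = 1) : aeval z (Rs g h) = 0 := by
  obtain ⟨r, hr⟩ := exists_cj (int_of_tor hg hd hn h1)
  exact (hr _).2 (Rs_complex hd (norm_one hn (hr.tor h1)) (norm_one hm (hr.tor h2)))

section padic

variable {p : ℕ} [Fact p.Prime]

theorem coe_aeval (z : ℤ_[p]) (Q : ℤ[X]) : ((aeval z Q : ℤ_[p]) : ℚ_[p]) = aeval (z : ℚ_[p]) Q := by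
  have := Polynomial.hom_eval₂ Q (algebraMap ℤ ℤ_[p]) (algebraMap ℤ_[p] ℚ_[p]) z
  rw [aeval_def, aeval_def]
  refine this.trans ?_
  congr 1

theorem toP_aeval (z : ℤ_[p]) (Q : ℤ[X]) : (toP p Q).eval z = aeval z Q := by
  rw [toP, eval_map, aeval_def]
  rfl

/-- the values of the divisors of `f` at a point of level one are roots of unity -/
theorem tor_of {f g : ℤ[X]} (hg : g.Monic) (hgf : g ∣ f) {z : ℤ_[p]} {n : ℕ}
    (h : Approx p f z n) : aeval z g ^ (2 * n) = 1 := by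
  obtain ⟨q, rfl⟩ := hgf
  rw [← toP_aeval]
  exact f_pow hg h.dvd

theorem cj_coe {L : Type} [CommRing L] {z : ℤ_[p]} {r : L} : Cj (z : ℚ_[p]) r ↔ Cj z r := by
  unfold Cj
  refine forall_congr' fun Q => ?_
  rw [← coe_aeval]
  simp

theorem cj_int {K : Type} [CommRing K] {z : ℤ_[p]} {r : K} (h : Cj z r) {x : ℤ} (hx : r = x) :
    z = x := by
  have h1 := (h (X - C x)).2 (by rw [map_sub, aeval_X, aeval_C, hx]; simp)
  rw [map_sub, aeval_X, aeval_C, sub_eq_zero] at h1
  simpa using h1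

end padic

end Pool.Agent.H76K
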