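import Mathlib

/-!
# The resultant of `g(z) g(w) - 1` and `h(z) h(w) - 1`
-/

set_option autoImplicit false
set_option linter.all false

open Polynomial

namespace Pool.Agent.H76K

/-- `g(z) g(w) - 1`, a polynomial in `w` with coefficients in `ℤ[z]` -/
noncomputable def bi (g : ℤ[X]) : ℤ[X][X] := C g * g.map C - 1

/-- the resultant of `g(z) g(w) - 1` and `h(z) h(w) - 1` with respect to `w` -/
noncomputable def Rs (g h : ℤ[X]) : ℤ[X] := resultant (bi g) (bi h) g.natDegree h.natDegree

theorem bi_natDegree (g : ℤ[X]) : (bi g).natDegree ≤ g.natDegree := by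
  unfold bi
  refine (natDegree_sub_le _ _).trans (max_le ?_ (by simp))
  refine (natDegree_C_mul_le _ _).trans natDegree_map_le

theorem bi_coeff (g : ℤ[X]) (k : ℕ) : ((bi g).coeff k).natDegree ≤ g.natDegree := by
  unfold bi
  rw [coeff_sub, coeff_C_mul, coeff_map]
  refine (natDegree_sub_le _ _).trans (max_le ?_ ?_)
  · exact (natDegree_mul_C_le _ _)
  · rw [coeff_one]
    split_ifs <;> simp

theorem Rs_natDegree (g h : ℤ[X]) : (Rs g h).natDegree ≤ 2 * (g.natDegree * h.natDegree) := by
  unfold Rs resultant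
  rw [Matrix.det_apply]
  refine natDegree_sum_le_of_forall_le _ _ fun σ _ => ?_
  have h0 : (Equiv.Perm.sign σ • ∏ i, sylvester (bi g) (bi h) g.natDegree h.natDegree (σ i) i).natDegree ≤
      (∏ i, sylvester (bi g) (bi h) g.natDegree h.natDegree (σ i) i).natDegree := by
    rcases Int.units_eq_one_or (Equiv.Perm.sign σ) with h | h <;> rw [h] <;> simp
  refine h0.trans ?_
  refine (natDegree_prod_le _ _).trans ?_
  rw [Fin.sum_univ_add]
  have h1 : ∀ j : Fin g.natDegree, (sylvester (bi g) (bi h) g.natDegree h.natDegree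
      (σ (Fin.castAdd h.natDegree j)) (Fin.castAdd h.natDegree j)).natDegree ≤ h.natDegree := by
    intro j
    simp only [sylvester, Matrix.of_apply, Fin.addCases_left]
    split_ifs
    · exact bi_coeff _ _
    · simp
  have h2 : ∀ j : Fin h.natDegree, (sylvester (bi g) (bi h) g.natDegree h.natDegree
      (σ (Fin.natAdd g.natDegree j)) (Fin.natAdd g.natDegree j)).natDegree ≤ g.natDegree := by
    intro j
    simp only [sylvester, Matrix.of_apply, Fin.addCases_right]
    split_ifs
    · exact bi_coeff _ _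
    · simp
  refine (Nat.add_le_add (Finset.sum_le_sum fun j _ => h1 j) (Finset.sum_le_sum fun j _ => h2 j)).trans ?_
  simp only [Finset.sum_const, Finset.card_univ, Fintype.card_fin, smul_eq_mul]
  rw [mul_comm h.natDegree g.natDegree, two_mul]

/-- a common solution gives a root of the resultant -/
theorem Rs_root {K : Type} [CommRing K] {g h : ℤ[X]} (hg : 0 < g.natDegree) {z w : K}
    (h1 : aeval z g * aeval w g = 1) (h2 : aeval z h * aeval w h = 1) : aeval z (Rs g h) = 0 := by
  obtain ⟨p, q, -, -, e⟩ := exists_mul_add_mul_eq_C_resultant (m := g.natDegree) (n := h.natDegree)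
    (bi g) (bi h) (bi_natDegree g) (bi_natDegree h) (Or.inl hg.ne')
  let φ : ℤ[X] →+* K := (aeval z : ℤ[X] →ₐ[ℤ] K).toRingHom
  have hφ : ∀ r, φ r = aeval z r := fun r => rfl
  have key : ∀ r : ℤ[X], eval₂ φ w (bi r) = aeval z r * aeval w r - 1 := by
    intro r
    unfold bi
    rw [eval₂_sub, eval₂_mul, eval₂_C, eval₂_one, eval₂_map, hφ]
    congr 2
    rw [aeval_def]
    congr 1
    ext a
    simp [hφ]
  have e2 := congrArg (eval₂ φ w) e
  rw [eval₂_add, eval₂_mul, eval₂_mul, key, key, h1, h2, sub_self, zero_mul, zero_mul, add_zero,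
    eval₂_C, hφ] at e2
  exact e2.symm

/-- the resultant is not zero if a root of `g` is not a root of `h` -/
theorem Rs_ne {g h : ℤ[X]} (hh : h.Monic) (hd : 0 < h.natDegree) {α : ℂ} (h1 : aeval α g = 0)
    (h2 : aeval α h ≠ 0) : Rs g h ≠ 0 := by
  intro h0
  let φ : ℤ[X] →+* ℂ := (aeval α : ℤ[X] →ₐ[ℤ] ℂ).toRingHom
  have hφ : ∀ r, φ r = aeval α r := fun r => rfl
  have key : ∀ r : ℤ[X], (bi r).map φ = C (aeval α r) * r.map (Int.castRingHom ℂ) - 1 := by
    intro r
    unfold bi
    rw [Polynomial.map_sub, Polynomial.map_mul, map_C, Polynomial.map_one, Polynomial.map_map, hφ]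
    congr 3
    ext a
    simp [hφ]
  have e := resultant_map_map (bi g) (bi h) g.natDegree h.natDegree φ
  change _ = φ (Rs g h) at e
  rw [h0, map_zero, key g, key h, h1, C_0, zero_mul, zero_sub, ← C_1, ← C_neg,
    resultant_C_left] at e
  have h3 : (C (aeval α h) * h.map (Int.castRingHom ℂ) - C 1).coeff h.natDegree ≠ 0 := by
    rw [coeff_sub, coeff_C_mul, coeff_map, hh.coeff_natDegree, coeff_C, if_neg hd.ne']
    simpa using h2
  exact mul_ne_zero (mul_ne_zero (pow_ne_zero _ (by norm_num)) (pow_ne_zero _ h3))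
    (pow_ne_zero _ (by norm_num)) e

end Pool.Agent.H76K
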