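import Pool.Agent.H14F.Frob
import Pool.Agent.H76K.B

/-!
# Primes with a given Frobenius element and `p`-adic roots
-/

set_option autoImplicit false
set_option linter.all false

open Polynomial NumberField
open scoped Classical Pointwise

namespace Pool.Agent.H76K

open Pool.Agent.H14F
open Pool.Agent.W401.Cheb (HasFrob)

/-- A Galois number field over which a given polynomial splits. -/
theorem exists_gal_split (P : ℚ[X]) :
    ∃ (N : Type) (_ : Field N) (_ : NumberField N) (_ : IsGalois ℚ N),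
      (P.map (algebraMap ℚ N)).Splits := by
  let K' := P.SplittingField
  haveI : CharZero K' := charZero_of_injective_algebraMap (algebraMap ℚ K').injective
  haveI : NumberField K' := ⟨⟩
  obtain ⟨N, i1, i2, i3, i4, -⟩ := exists_gal K'
  refine ⟨N, i1, i2, i3, ?_⟩
  have h1 := (SplittingField.splits P).map (algebraMap K' N)
  rw [Polynomial.map_map] at h1
  have e : ∀ j : ℚ →+* N, (P.map j).Splits → (P.map (algebraMap ℚ N)).Splits := fun j hj => by
    rwa [Subsingleton.elim j (algebraMap ℚ N)] at hj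
  exact e _ h1

section

variable {N : Type} [Field N] [NumberField N] [IsGalois ℚ N]

theorem smulc (σ : Gal(N/ℚ)) (x : 𝓞 N) : ((σ • x : 𝓞 N) : N) = σ (x : N) := rfl

/-- the product over the conjugates -/
theorem exists_prod (x : 𝓞 N) : ∃ Q : ℤ[X], Q.map (algebraMap ℤ (𝓞 N)) =
    ∏ τ : Gal(N/ℚ), (X - C (τ • x)) := by
  have h : (∏ τ : Gal(N/ℚ), (X - C (τ • x))) ∈ Polynomial.lifts (algebraMap ℤ (𝓞 N)) := by
    rw [Polynomial.lifts_iff_coeff_lifts]
    intro n
    have hinv : ∀ σ : Gal(N/ℚ), σ • ((∏ τ : Gal(N/ℚ), (X - C (τ • x))).coeff n) =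
        (∏ τ : Gal(N/ℚ), (X - C (τ • x))).coeff n := by
      intro σ
      have h1 : (∏ τ : Gal(N/ℚ), (X - C (τ • x))).map
          (MulSemiringAction.toRingHom Gal(N/ℚ) (𝓞 N) σ) = ∏ τ : Gal(N/ℚ), (X - C (τ • x)) := by
        rw [Polynomial.map_prod]
        refine Fintype.prod_equiv (Equiv.mulLeft σ) _ _ fun τ => ?_
        rw [Polynomial.map_sub, map_X, map_C, Equiv.coe_mulLeft, mul_smul]
        rfl
      conv_rhs => rw [← h1]
      rw [coeff_map]
      rfl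
    obtain ⟨m, hm⟩ := inv_int _ hinv
    exact ⟨m, by rw [← hm]; simp⟩
  exact h

theorem frob_pts {R : ℤ[X]} (hR : R ≠ 0)
    (hs : ((R.map (algebraMap ℤ ℚ)).map (algebraMap ℚ N)).Splits) (σ : Gal(N/ℚ)) (B : ℕ) :
    ∃ (p : ℕ) (_ : Fact p.Prime), B < p ∧ ∀ z : ℤ_[p], IsIntegral ℤ (z : ℚ_[p]) →
      aeval z R = 0 → ∃ y : 𝓞 N, Cj z (y : N) ∧ σ • y = y := by
  have hRm : (R.map (algebraMap ℤ (𝓞 N))) ≠ 0 :=
    (Polynomial.map_ne_zero_iff (algebraMap ℤ (𝓞 N)).injective_int).2 hR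
  have hRQ : (R.map (algebraMap ℤ ℚ)) ≠ 0 :=
    (Polynomial.map_ne_zero_iff (algebraMap ℤ ℚ).injective_int).2 hR
  obtain ⟨D, hD⟩ : ∃ D : 𝓞 N, D = ∏ x ∈ (R.map (algebraMap ℤ (𝓞 N))).roots.toFinset,
    (if σ • x = x then 1 else (σ • x - x)) := ⟨_, rfl⟩
  have hD0 : D ≠ 0 := by
    rw [hD]
    refine Finset.prod_ne_zero_iff.2 fun x _ => ?_
    split_ifs with h
    · exact one_ne_zero
    · exact sub_ne_zero.2 h
  obtain ⟨p, hp, hpB, ⟨φ, hφ⟩, -⟩ := inf_frob N σ (max B (Algebra.norm ℤ D).natAbs)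
  refine ⟨p, hp, (le_max_left _ _).trans_lt hpB, ?_⟩
  have hpD : ¬ p ∣ (Algebra.norm ℤ D).natAbs := by
    intro h5
    have h6 : 0 < (Algebra.norm ℤ D).natAbs := by
      rw [Int.natAbs_pos, ne_eq, Algebra.norm_eq_zero_iff]
      exact hD0
    exact absurd (Nat.le_of_dvd h6 h5) (not_le.2 ((le_max_right _ _).trans_lt hpB))
  intro z hz hzR
  have hzQ : IsIntegral ℚ (z : ℚ_[p]) := hz.tower_top
  -- a conjugate in `N`
  obtain ⟨r, hr⟩ : ∃ r : N, aeval r (minpoly ℚ (z : ℚ_[p])) = 0 := by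
    have h1 : minpoly ℚ (z : ℚ_[p]) ∣ R.map (algebraMap ℤ ℚ) := by
      apply minpoly.dvd
      rw [aeval_map_algebraMap, ← coe_aeval, hzR]
      simp
    have hmap : (R.map (algebraMap ℤ ℚ)).map (algebraMap ℚ N) ≠ 0 := by
      rw [Ne, Polynomial.map_eq_zero]; exact hRQ
    have h2 : ((minpoly ℚ (z : ℚ_[p])).map (algebraMap ℚ N)).Splits :=
      hs.of_dvd hmap (Polynomial.map_dvd _ h1)
    obtain ⟨r, hr⟩ := h2.exists_eval_eq_zero (by
      rw [degree_map]; exact (minpoly.degree_pos hzQ).ne')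
    exact ⟨r, by rwa [eval_map_algebraMap] at hr⟩
  have hcj : Cj z r := cj_coe.1 (cj_of hzQ hr)
  have hri : IsIntegral ℤ r := by
    refine ⟨minpoly ℤ (z : ℚ_[p]), minpoly.monic hz, ?_⟩
    rw [← aeval_def]
    exact (cj_coe.2 hcj _).1 (minpoly.aeval _ _)
  obtain ⟨x, hx⟩ : ∃ x : 𝓞 N, (x : N) = r := ⟨⟨r, hri⟩, rfl⟩
  -- the reduction
  obtain ⟨Q, hQ⟩ := exists_prod x
  have hcoe : ∀ (y : 𝓞 N) (P : ℤ[X]), aeval (y : N) P = ((aeval y P : 𝓞 N) : N) := fun y P =>
    Polynomial.aeval_algebraMap_apply N y P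
  have hQx : aeval x Q = 0 := by
    rw [← eval_map_algebraMap, hQ, eval_prod]
    refine Finset.prod_eq_zero (Finset.mem_univ (1 : Gal(N/ℚ))) ?_
    simp
  have hQz : aeval z Q = 0 := by
    refine (hcj Q).2 ?_
    rw [← hx, hcoe, hQx]
    rfl
  let π : ℤ_[p] →+* AlgebraicClosure (ZMod p) :=
    (algebraMap (ZMod p) (AlgebraicClosure (ZMod p))).comp PadicInt.toZMod
  have hπ : π z ^ p = π z := by
    change (algebraMap (ZMod p) (AlgebraicClosure (ZMod p)) (PadicInt.toZMod z)) ^ p = _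
    rw [← map_pow, ZMod.pow_card]
    rfl
  have h3 : eval (π z) ((Q.map (algebraMap ℤ (𝓞 N))).map φ) = 0 := by
    rw [Polynomial.map_map, eval_map]
    have h4 := Polynomial.hom_eval₂ Q (algebraMap ℤ ℤ_[p]) π z
    rw [← aeval_def, hQz, map_zero] at h4
    rw [h4]
    congr 1
    exact Subsingleton.elim _ _
  rw [hQ, Polynomial.map_prod, eval_prod, Finset.prod_eq_zero_iff] at h3
  obtain ⟨τ, -, h3⟩ := h3
  rw [Polynomial.map_sub, map_X, map_C, eval_sub, eval_X, eval_C, sub_eq_zero] at h3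
  have hcjy : Cj z ((τ • x : 𝓞 N) : N) := by
    intro P
    rw [hcj P, smulc, hx]
    have h4 : aeval (τ r) P = τ (aeval r P) := by
      have := Polynomial.hom_eval₂ P (algebraMap ℤ N) (τ : N →+* N) r
      rw [aeval_def, aeval_def]
      refine Eq.trans ?_ this.symm
      congr 1
      exact Subsingleton.elim _ _
    rw [h4]
    simp
  refine ⟨τ • x, hcjy, ?_⟩
  by_contra hne
  have h5 : φ (σ • (τ • x) - τ • x) = 0 := by
    rw [map_sub, hφ, ← h3, hπ, sub_self]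
  have h6 : φ D = 0 := by
    have h7 : τ • x ∈ (R.map (algebraMap ℤ (𝓞 N))).roots.toFinset := by
      rw [Multiset.mem_toFinset, mem_roots hRm, IsRoot.def, eval_map_algebraMap]
      apply RingOfIntegers.ext
      rw [← hcoe, (hcjy R).1 hzR]
      rfl
    rw [hD, map_prod]
    refine Finset.prod_eq_zero h7 ?_
    rw [if_neg hne]
    exact h5
  have h7 := _root_.W54.ChTor.norm_mem (L := N) D φ h6
  rw [CharP.cast_eq_zero_iff _ p] at h7
  exact hpD h7

/-- complex conjugation -/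
theorem exists_conj (ι : N →+* ℂ) : ∃ c : Gal(N/ℚ), ∀ x : N, ι (c x) = (starRingEnd ℂ) (ι x) := by
  letI : Algebra N ℂ := ι.toAlgebra
  haveI : IsScalarTower ℚ N ℂ := IsScalarTower.of_algebraMap_eq fun x => by simp
  let χ : ℂ ≃ₐ[ℚ] ℂ := Complex.conjAe.restrictScalars ℚ
  refine ⟨χ.restrictNormal N, fun x => ?_⟩
  exact χ.restrictNormal_commutes N x

end

end Pool.Agent.H76K
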