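import Pool.Agent.H76K.C

/-!
# Points of level one: the main lemmas
-/

set_option autoImplicit false
set_option linter.all false

open Polynomial NumberField
open scoped Classical Pointwise IntermediateField

namespace Pool.Agent.H76K

open Pool.Agent.N874.WG

/-- numbers with a small value of the totient function divide a factorial -/
theorem dvd_fact {m D : ℕ} (hm : 0 < m) (h : m.totient ≤ D) : m ∣ (2 * D).factorial := by
  rw [Nat.dvd_iff_prime_pow_dvd_dvd]
  intro q k hq hk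
  rcases Nat.eq_zero_or_pos k with rfl | hk0
  · simp
  apply Nat.dvd_factorial (pow_pos hq.pos k)
  have h1 : (q ^ k).totient ≤ D := by
    refine (Nat.le_of_dvd (Nat.totient_pos.2 hm) (Nat.totient_dvd_of_dvd hk)).trans h
  rw [Nat.totient_prime_pow hq hk0] at h1
  obtain ⟨j, rfl⟩ : ∃ j, k = j + 1 := ⟨k - 1, by omega⟩
  have h2 : j + 1 - 1 = j := by omega
  rw [h2] at h1
  have h3 : q ≤ 2 * (q - 1) := by have := hq.two_le; omega
  calc q ^ (j + 1) = q ^ j * q := pow_succ _ _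
    _ ≤ q ^ j * (2 * (q - 1)) := by gcongr
    _ = 2 * (q ^ j * (q - 1)) := by ring
    _ ≤ 2 * D := by omega

/-- the order of a root of unity which is a polynomial in a number of small degree -/
theorem order_le {K : Type} [Field K] [CharZero K] {z : K} {R : ℤ[X]} (hR : R ≠ 0)
    (hz : aeval z R = 0) {D : ℕ} (hD : R.natDegree ≤ D) {g : ℤ[X]} {n : ℕ} (hn : 0 < n)
    (h : aeval z g ^ n = 1) : (orderOf (aeval z g)).totient ≤ D := by
  have hRQ : (R.map (algebraMap ℤ ℚ)) ≠ 0 :=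
    (Polynomial.map_ne_zero_iff (algebraMap ℤ ℚ).injective_int).2 hR
  have hzQ : IsIntegral ℚ z := by
    rw [← isAlgebraic_iff_isIntegral]
    exact ⟨R.map (algebraMap ℤ ℚ), hRQ, by rw [aeval_map_algebraMap]; exact hz⟩
  have hpos : 0 < orderOf (aeval z g) :=
    orderOf_pos_iff.2 (isOfFinOrder_iff_pow_eq_one.2 ⟨n, hn, h⟩)
  have hprim := IsPrimitiveRoot.orderOf (aeval z g)
  have h1 := hprim.totient_le_degree_minpoly
  have hint : IsIntegral ℤ (aeval z g) := hprim.isIntegral hpos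
  have h2 : (minpoly ℤ (aeval z g)).natDegree = (minpoly ℚ (aeval z g)).natDegree := by
    rw [minpoly.isIntegrallyClosed_eq_field_fractions' ℚ hint, (minpoly.monic hint).natDegree_map]
  haveI : FiniteDimensional ℚ ℚ⟮z⟯ := IntermediateField.adjoin.finiteDimensional hzQ
  have h3 : (minpoly ℚ (aeval z g)).natDegree ≤ Module.finrank ℚ ℚ⟮z⟯ := by
    have h4 : aeval z g = algebraMap ℚ⟮z⟯ K (aeval (IntermediateField.AdjoinSimple.gen ℚ z) g) := by
      rw [← aeval_algebraMap_apply, IntermediateField.AdjoinSimple.algebraMap_gen]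
    rw [h4, minpoly.algebraMap_eq (algebraMap ℚ⟮z⟯ K).injective]
    exact minpoly.natDegree_le _
  rw [IntermediateField.adjoin.finrank hzQ] at h3
  have h5 : (minpoly ℚ z).natDegree ≤ R.natDegree := by
    have h6 : minpoly ℚ z ∣ R.map (algebraMap ℤ ℚ) := by
      apply minpoly.dvd
      rw [aeval_map_algebraMap]
      exact hz
    exact (natDegree_le_of_dvd h6 hRQ).trans natDegree_map_le
  omega

/-- the values are roots of unity of bounded order -/
theorem pow_fact {K : Type} [Field K] [CharZero K] {z : K} {R : ℤ[X]} (hR : R ≠ 0)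
    (hz : aeval z R = 0) {D : ℕ} (hD : R.natDegree ≤ D) {g : ℤ[X]} {n : ℕ} (hn : 0 < n)
    (h : aeval z g ^ n = 1) : aeval z g ^ (2 * D).factorial = 1 := by
  have hpos : 0 < orderOf (aeval z g) :=
    orderOf_pos_iff.2 (isOfFinOrder_iff_pow_eq_one.2 ⟨n, hn, h⟩)
  exact orderOf_dvd_iff_pow_eq_one.1 (dvd_fact hpos (order_le hR hz hD hn h))

/-- the number `w` is a torsion point -/
def IsTor {K : Type} [CommRing K] (f : ℤ[X]) (w : K) : Prop :=
  ∀ g : ℤ[X], g.Monic → g ∣ f → ∃ n : ℕ, 0 < n ∧ aeval w g ^ n = 1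

theorem Cj.isTor {K L : Type} [CommRing K] [CommRing L] {f : ℤ[X]} {z : K} {r : L} (h : Cj z r)
    (hz : IsTor f z) : IsTor f r := by
  intro g hg hgf
  obtain ⟨n, hn, h1⟩ := hz g hg hgf
  exact ⟨n, hn, h.tor h1⟩

theorem IsTor.root {K : Type} [Field K] [CharZero K] {f g h : ℤ[X]} {w : K} (hw : IsTor f w)
    (hg : g.Monic) (hgf : g ∣ f) (hd : 0 < g.natDegree) (hh : h.Monic) (hhf : h ∣ f) :
    aeval w (Rs g h) = 0 := by
  obtain ⟨n, hn, h1⟩ := hw g hg hgf
  obtain ⟨m, hm, h2⟩ := hw h hh hhf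
  exact Rs_tor hg hd hn hm h1 h2

section padic

variable {p : ℕ} [Fact p.Prime]

theorem isTor_of {f : ℤ[X]} {z : ℤ_[p]} {n : ℕ} (hn : 0 < n) (h : Approx p f z n) : IsTor f z :=
  fun g hg hgf => ⟨2 * n, by omega, tor_of hg hgf h⟩

theorem IsTor.coe {f : ℤ[X]} {z : ℤ_[p]} (h : IsTor f z) : IsTor f (z : ℚ_[p]) := by
  intro g hg hgf
  obtain ⟨n, hn, h1⟩ := h g hg hgf
  refine ⟨n, hn, ?_⟩
  rw [← coe_aeval, ← PadicInt.coe_pow, h1, PadicInt.coe_one]

theorem IsTor.integral {K : Type} [Field K] [CharZero K] {f : ℤ[X]} (hf : f.Monic)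
    (hd : 0 < f.natDegree) {z : K} (h : IsTor f z) : IsIntegral ℤ z := by
  obtain ⟨n, hn, h1⟩ := h f hf (dvd_refl f)
  exact int_of_tor hf hd hn h1

/-- a conjugate complex number -/
theorem exists_complex {f : ℤ[X]} (hf : f.Monic) (hd : 0 < f.natDegree) {z : ℤ_[p]}
    (h : IsTor f z) : ∃ w : ℂ, IsTor f w ∧ Cj z w := by
  obtain ⟨w, hw⟩ := exists_cj (h.coe.integral hf hd)
  have hw' : Cj z w := cj_coe.1 hw
  exact ⟨w, hw'.isTor h, hw'⟩

/-- the value of a divisor at a point of level one is `± 1` -/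
theorem pm {f g : ℤ[X]} {z : ℤ_[p]} (hz : IsTor f z) {R : ℤ[X]} (hR : R ≠ 0)
    (hzR : aeval z R = 0) {D : ℕ} (hD : R.natDegree ≤ D) (h4 : p % 4 = 3)
    (hq : ∀ q : ℕ, q.Prime → q ≠ 2 → q ≤ D + 1 → ¬ q ∣ p - 1) (hg : g.Monic) (hgf : g ∣ f) :
    aeval z g = 1 ∨ aeval z g = -1 := by
  obtain ⟨n, hn, h1⟩ := hz g hg hgf
  refine pm_one D h4 hq hn h1 ?_
  have h2 : aeval (z : ℚ_[p]) R = 0 := by
    rw [← coe_aeval, hzR]
    rfl
  have h3 : aeval (z : ℚ_[p]) g ^ n = 1 := by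
    rw [← coe_aeval, ← PadicInt.coe_pow, h1, PadicInt.coe_one]
  have h5 := order_le hR h2 hD hn h3
  rw [← coe_aeval] at h5
  have h6 : orderOf (((aeval z g : ℤ_[p]) : ℚ_[p])) = orderOf (aeval z g : ℤ_[p]) :=
    orderOf_injective (PadicInt.Coe.ringHom (p := p) : ℤ_[p] →* ℚ_[p])
      (fun a b hab => PadicInt.ext hab) _
  rwa [h6] at h5

end padic

/-- infinitely many primes -/
theorem exists_prime {f R : ℤ[X]} (hf : f.Monic) (hd : 0 < f.natDegree) (hR : R ≠ 0)
    (hreal : ∀ x : ℝ, (∀ g : ℤ[X], g.Monic → g ∣ f → aeval x g = 1 ∨ aeval x g = -1) →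
      ∃ m : ℤ, x = m) (B : ℕ) :
    ∃ (p : ℕ) (_ : Fact p.Prime), B < p ∧ ∀ z : ℤ_[p], IsTor f z → aeval z R = 0 →
      ∃ m : ℤ, z = m := by
  obtain ⟨N, _, _, _, hs⟩ := exists_gal_split (R.map (algebraMap ℤ ℚ))
  obtain ⟨ι⟩ : Nonempty (N →+* ℂ) := inferInstance
  obtain ⟨c, hc⟩ := exists_conj ι
  obtain ⟨p, ip, hpB, hp⟩ := frob_pts hR hs c B
  refine ⟨p, ip, hpB, fun z hz hzR => ?_⟩
  obtain ⟨y, hy, hcy⟩ := hp z (hz.coe.integral hf hd) hzR
  have h1 : (starRingEnd ℂ) (ι (y : N)) = ι (y : N) := by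
    rw [← hc]
    congr 1
    exact congrArg (fun t : 𝓞 N => (t : N)) hcy
  obtain ⟨x, hx⟩ := Complex.conj_eq_iff_real.1 h1
  have hcj : Cj z x := by
    intro Q
    rw [hy Q]
    have h2 := Polynomial.hom_eval₂ Q (algebraMap ℤ N) ι (y : N)
    have h3 := Polynomial.hom_eval₂ Q (algebraMap ℤ ℝ) Complex.ofRealHom x
    have e1 : ι.comp (algebraMap ℤ N) = Complex.ofRealHom.comp (algebraMap ℤ ℝ) :=
      Subsingleton.elim _ _
    have e2 : Complex.ofRealHom x = ι (y : N) := hx.symm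
    rw [e1, ← e2, ← h3] at h2
    rw [aeval_def, aeval_def]
    constructor
    · intro h
      rw [h, map_zero] at h2
      have h4 : Complex.ofRealHom (eval₂ (algebraMap ℤ ℝ) x Q) = Complex.ofRealHom 0 := by
        rw [← h2, map_zero]
      exact Complex.ofRealHom.injective h4
    · intro h
      rw [h, map_zero] at h2
      exact (map_eq_zero ι).1 h2
  obtain ⟨m, hm⟩ := hreal x fun g hg hgf => by
    obtain ⟨n, hn, h2⟩ := hcj.isTor hz g hg hgf
    rcases Nat.even_or_odd n with he | ho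
    · exact (pow_eq_one_iff_of_ne_zero hn.ne').1 h2 |>.imp id fun h => h.1
    · left
      exact (pow_eq_one_iff_of_ne_zero hn.ne').1 h2 |>.resolve_right fun h =>
        (Nat.not_even_iff_odd.2 ho) h.2
  exact ⟨m, cj_int hcj hm⟩

end Pool.Agent.H76K
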