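import Pool.Agent.H76K.D

/-!
# Counting pairs of polynomials with a torsion point
-/

set_option autoImplicit false
set_option linter.all false

open Polynomial
open scoped Classical

namespace Pool.Agent.H76K

/-- the monic polynomial with the lower coefficients `c` -/
noncomputable def mo {a : ℕ} (c : Fin a → ℤ) : ℤ[X] := X ^ a + ∑ i : Fin a, C (c i) * X ^ (i : ℕ)

theorem mo_low {a : ℕ} (c : Fin a → ℤ) : (∑ i : Fin a, C (c i) * X ^ (i : ℕ) : ℤ[X]).degree < a := by
  refine (degree_sum_le _ _).trans_lt ?_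
  rw [Finset.sup_lt_iff (by exact WithBot.bot_lt_coe a)]
  intro i _
  refine (degree_C_mul_X_pow_le _ _).trans_lt ?_
  exact_mod_cast i.2

theorem mo_monic {a : ℕ} (c : Fin a → ℤ) : (mo c).Monic := monic_X_pow_add (mo_low c)

theorem mo_natDegree {a : ℕ} (c : Fin a → ℤ) : (mo c).natDegree = a := by
  unfold mo
  rw [natDegree_add_eq_left_of_degree_lt]
  · simp
  · rw [degree_X_pow]
    exact mo_low c

theorem aeval_mo {a : ℕ} (c : Fin a → ℤ) (w : ℂ) :
    aeval w (mo c) = w ^ a + ∑ i : Fin a, (c i : ℂ) * w ^ (i : ℕ) := by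
  unfold mo
  rw [map_add, map_pow, aeval_X, map_sum]
  congr 1
  refine Finset.sum_congr rfl fun i _ => ?_
  simp

/-- the coefficients of absolute value at most `H` -/
noncomputable def bx (a H : ℕ) : Finset (Fin a → ℤ) := Fintype.piFinset fun _ => Finset.Icc (-(H : ℤ)) H

theorem card_bx (a H : ℕ) : (bx a H).card = (2 * H + 1) ^ a := by
  unfold bx
  rw [Fintype.card_piFinset_const, Int.card_Icc]
  congr 1
  omega

/-- one condition -/
theorem card_cond (b H : ℕ) (w ζ : ℂ) :
    ((bx (b + 1) H).filter fun d => aeval w (mo d) = ζ).card ≤ (2 * H + 1) ^ b := by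
  rw [← card_bx]
  refine Finset.card_le_card_of_injOn (fun d i => d i.succ) ?_ ?_
  · intro d hd
    have h1 := (Finset.mem_filter.1 (Finset.mem_coe.1 hd)).1
    rw [bx, Fintype.mem_piFinset] at h1
    rw [Finset.mem_coe, bx, Fintype.mem_piFinset]
    exact fun i => h1 i.succ
  · intro d hd e he hde
    have h1 := (Finset.mem_filter.1 (Finset.mem_coe.1 hd)).2
    have h2 := (Finset.mem_filter.1 (Finset.mem_coe.1 he)).2
    rw [aeval_mo, Fin.sum_univ_succ] at h1 h2
    have h3 : ∀ i : Fin b, d i.succ = e i.succ := fun i => congrFun hde i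
    have h4 : (d 0 : ℂ) = e 0 := by
      simp only [h3] at h1
      have h5 := h1.trans h2.symm
      simpa using h5
    funext i
    refine Fin.cases ?_ (fun j => h3 j) i
    exact_mod_cast h4

/-- the pairs with a torsion point, for one `g` -/
theorem card_fib (a b H : ℕ) (ha : 0 < a) (c : Fin a → ℤ) :
    ((bx (b + 1) H).filter fun d => ∃ w : ℂ, IsTor (mo c * mo d) w).card ≤
      (1 + a * ((4 * a * (b + 1)).factorial) ^ 2) * (2 * H + 1) ^ b := by
  set K := (4 * a * (b + 1)).factorial with hK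
  have hKpos : 0 < K := Nat.factorial_pos _
  obtain ⟨α, hα⟩ : ∃ α : ℂ, aeval α (mo c) = 0 := by
    obtain ⟨α, hα⟩ := IsAlgClosed.exists_aeval_eq_zero ℂ ((mo c).map (algebraMap ℤ ℚ)) (by
      rw [(mo_monic c).degree_map, degree_eq_natDegree (mo_monic c).ne_zero, mo_natDegree]
      exact_mod_cast ha.ne')
    exact ⟨α, by rwa [aeval_map_algebraMap] at hα⟩
  -- the conditions
  let Q : ℂ[X] := (mo c).map (algebraMap ℤ ℂ) ^ K - 1
  have hQm : Q.Monic := by
    refine (((mo_monic c).map _).pow K).sub_of_left ?_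
    rw [degree_one, ← natDegree_pos_iff_degree_pos, ((mo_monic c).map _).natDegree_pow,
      (mo_monic c).natDegree_map, mo_natDegree]
    exact Nat.mul_pos hKpos ha
  have hQd : Q.natDegree ≤ a * K := by
    refine (natDegree_sub_le _ _).trans (max_le ?_ (by simp))
    rw [((mo_monic c).map _).natDegree_pow, (mo_monic c).natDegree_map, mo_natDegree, mul_comm]
  let Z : Finset ℂ := Q.roots.toFinset
  have hZ : Z.card ≤ a * K := (Multiset.toFinset_card_le _).trans ((card_roots' _).trans hQd)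
  have hZm : ∀ w : ℂ, aeval w (mo c) ^ K = 1 → w ∈ Z := by
    intro w hw
    rw [Multiset.mem_toFinset, mem_roots hQm.ne_zero, IsRoot.def, eval_sub, eval_pow,
      eval_map_algebraMap, hw, eval_one, sub_self]
  let M : Finset ℂ := (nthRoots K (1 : ℂ)).toFinset
  have hM : M.card ≤ K := (Multiset.toFinset_card_le _).trans (card_nthRoots K 1)
  have hMm : ∀ ζ : ℂ, ζ ^ K = 1 → ζ ∈ M := by
    intro ζ hζ
    rw [Multiset.mem_toFinset, mem_nthRoots hKpos]
    exact hζ
  let T : Finset (ℂ × ℂ) := insert (α, 0) (Z ×ˢ M)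
  have hT : T.card ≤ 1 + a * K ^ 2 := by
    refine (Finset.card_insert_le _ _).trans ?_
    rw [Finset.card_product, add_comm]
    have : Z.card * M.card ≤ a * K * K := Nat.mul_le_mul hZ hM
    nlinarith
  have hsub : ((bx (b + 1) H).filter fun d => ∃ w : ℂ, IsTor (mo c * mo d) w) ⊆
      T.biUnion fun t => (bx (b + 1) H).filter fun d => aeval t.1 (mo d) = t.2 := by
    intro d hd
    obtain ⟨hd1, w, hw⟩ := Finset.mem_filter.1 hd
    rw [Finset.mem_biUnion]
    by_cases h0 : aeval α (mo d) = 0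
    · exact ⟨(α, 0), Finset.mem_insert_self _ _, Finset.mem_filter.2 ⟨hd1, h0⟩⟩
    · have hR := Rs_ne (mo_monic d) (by rw [mo_natDegree]; omega) hα h0
      have hR0 := hw.root (mo_monic c) (dvd_mul_right _ _) (by rw [mo_natDegree]; exact ha)
        (mo_monic d) (dvd_mul_left _ _)
      have hD := Rs_natDegree (mo c) (mo d)
      rw [mo_natDegree, mo_natDegree] at hD
      have e : (2 * (2 * (a * (b + 1)))).factorial = K := by
        rw [hK]
        congr 1
        ring
      obtain ⟨n, hn, h1⟩ := hw (mo c) (mo_monic c) (dvd_mul_right _ _)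
      obtain ⟨m, hm, h2⟩ := hw (mo d) (mo_monic d) (dvd_mul_left _ _)
      have h3 := pow_fact hR hR0 hD hn h1
      have h4 := pow_fact hR hR0 hD hm h2
      rw [e] at h3 h4
      exact ⟨(w, aeval w (mo d)), Finset.mem_insert_of_mem (Finset.mem_product.2
        ⟨hZm w h3, hMm _ h4⟩), Finset.mem_filter.2 ⟨hd1, rfl⟩⟩
  refine (Finset.card_le_card hsub).trans (Finset.card_biUnion_le.trans ?_)
  refine (Finset.sum_le_sum fun t _ => card_cond b H t.1 t.2).trans ?_
  rw [Finset.sum_const, smul_eq_mul]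
  exact Nat.mul_le_mul_right _ hT

theorem card_pairs (a b : ℕ) (ha : 0 < a) (hb : 0 < b) (H : ℕ) :
    ((bx a H ×ˢ bx b H).filter fun c => ∃ w : ℂ, IsTor (mo c.1 * mo c.2) w).card ≤
      (1 + a * ((4 * a * b).factorial) ^ 2) * (2 * H + 1) ^ (a + b - 1) := by
  obtain ⟨b, rfl⟩ : ∃ b', b = b' + 1 := ⟨b - 1, by omega⟩
  have h1 : ((bx a H ×ˢ bx (b + 1) H).filter fun c => ∃ w : ℂ, IsTor (mo c.1 * mo c.2) w) ⊆
      (bx a H).biUnion fun c => ((bx (b + 1) H).filter fun d =>
        ∃ w : ℂ, IsTor (mo c * mo d) w).image fun d => (c, d) := by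
    rintro ⟨c, d⟩ hcd
    obtain ⟨h2, h3⟩ := Finset.mem_filter.1 hcd
    obtain ⟨h4, h5⟩ := Finset.mem_product.1 h2
    rw [Finset.mem_biUnion]
    exact ⟨c, h4, Finset.mem_image.2 ⟨d, Finset.mem_filter.2 ⟨h5, h3⟩, rfl⟩⟩
  refine (Finset.card_le_card h1).trans (Finset.card_biUnion_le.trans ?_)
  refine (Finset.sum_le_sum fun c _ => Finset.card_image_le.trans (card_fib a b H ha c)).trans ?_
  rw [Finset.sum_const, smul_eq_mul, card_bx]
  have e : a + (b + 1) - 1 = a + b := by omega
  rw [e, pow_add]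
  apply le_of_eq
  ring

end Pool.Agent.H76K
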