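import Pool.Agent.H76K.E

/-!
# The units of a CM field and points of level one
-/

set_option autoImplicit false
set_option linter.all false

open Polynomial NumberField NumberField.IsCMField NumberField.Units
open scoped Classical

namespace Pool.Agent.H76K

open Pool.Agent.N874.WG

theorem exists_companion' {R : Type} [CommRing R] [Nontrivial R] (f : R[X]) (hf : f.Monic) :
    ∃ (d : ℕ) (B : Matrix (Fin d) (Fin d) R), B.charpoly = f := by
  let pb := AdjoinRoot.powerBasis' hf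
  have hdim : pb.dim = f.natDegree := rfl
  let B : Matrix (Fin pb.dim) (Fin pb.dim) R := Algebra.leftMulMatrix pb.basis pb.gen
  have h1 : aeval pb.gen B.charpoly = 0 := by
    apply (injective_iff_map_eq_zero (Algebra.leftMulMatrix pb.basis)).mp
      (Algebra.leftMulMatrix_injective pb.basis)
    rw [← Polynomial.aeval_algHom_apply]
    exact Matrix.aeval_self_charpoly B
  have hgen : pb.gen = AdjoinRoot.root f := AdjoinRoot.powerBasis'_gen hf
  rw [hgen, AdjoinRoot.aeval_eq, AdjoinRoot.mk_eq_zero] at h1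
  refine ⟨_, B, ?_⟩
  have h2 : B.charpoly.natDegree = f.natDegree := by
    rw [Matrix.charpoly_natDegree_eq_dim, Fintype.card_fin, hdim]
  exact (Polynomial.eq_of_monic_of_dvd_of_natDegree_le hf (Matrix.charpoly_monic B) h1 h2.le)

theorem det_add {S : Type} [CommRing S] {d : ℕ} (M N : Matrix (Fin d) (Fin d) S) (a : S) :
    ∃ y : S, (M + a • N).det = M.det + a * y := by
  have h : (Ideal.Quotient.mk (Ideal.span {a})) ((M + a • N).det) =
      (Ideal.Quotient.mk (Ideal.span {a})) M.det := by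
    rw [RingHom.map_det, RingHom.map_det]
    congr 1
    ext i j
    simp only [RingHom.mapMatrix_apply, Matrix.map_apply, Matrix.add_apply, Matrix.smul_apply,
      smul_eq_mul, map_add, map_mul]
    have : Ideal.Quotient.mk (Ideal.span {a}) a = 0 :=
      Ideal.Quotient.eq_zero_iff_mem.2 (Ideal.mem_span_singleton_self a)
    rw [this, zero_mul, add_zero]
  rw [Ideal.Quotient.eq, Ideal.mem_span_singleton] at h
  obtain ⟨y, hy⟩ := h
  exact ⟨y, by rw [← hy]; ring⟩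

theorem aeval_dvd {R : Type} [CommRing R] {d : ℕ} (B : Matrix (Fin d) (Fin d) R) {f : ℤ[X]}
    (hdv : B.charpoly ∣ f.map (algebraMap ℤ R)) : aeval B f = 0 := by
  obtain ⟨q, hq⟩ := hdv
  rw [← aeval_map_algebraMap R, hq, map_mul, Matrix.aeval_self_charpoly, zero_mul]

section

variable {p : ℕ} [Fact p.Prime]

theorem cong {R S : Type} [CommRing R] [CommRing S] (φ : R →+* S) (ψ : ℤ_[p] →+* S)
    {d : ℕ} (B : Matrix (Fin d) (Fin d) R) {f : ℤ[X]} (hdv : B.charpoly ∣ f.map (algebraMap ℤ R))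
    {z : ℤ_[p]} {n k : ℕ} {u : ℤ[X]} {b c : ℤ_[p][X]}
    (h : (C z - X) ^ n = toP p u + toP p f * b + C ((p : ℤ_[p]) ^ k) * c) :
    ∃ y : S, (B.charpoly.eval₂ φ (ψ z)) ^ n = φ ((aeval B u).det) + (p : S) ^ k * y := by
  let B' : Matrix (Fin d) (Fin d) S := B.map φ
  have hB' : B'.charpoly = B.charpoly.map φ := Matrix.charpoly_map B φ
  have e1 : ∀ w : ℤ[X], aeval B' ((toP p w).map ψ) = (aeval B w).map φ := by
    intro w
    have e := Polynomial.map_aeval_eq_aeval_map (S := Matrix (Fin d) (Fin d) R)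
      (T := S) (U := Matrix (Fin d) (Fin d) S) (φ := algebraMap ℤ S)
      (ψ := φ.mapMatrix) (RingHom.ext_int _ _) w B
    have e' : (toP p w).map ψ = w.map (algebraMap ℤ S) := by
      rw [toP, Polynomial.map_map]
      congr 1
      exact RingHom.ext_int _ _
    rw [e']
    exact e.symm
  have h1 : aeval B' (C (ψ z) - X) = Matrix.scalar _ (ψ z) - B' := by
    rw [map_sub, aeval_C, aeval_X]
    rfl
  have h2 : (aeval B' (C (ψ z) - X)).det = B.charpoly.eval₂ φ (ψ z) := by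
    rw [h1, ← Matrix.eval_charpoly, hB', eval_map]
  have h3 := congrArg (fun q : ℤ_[p][X] => aeval B' (q.map ψ)) h
  simp only [Polynomial.map_pow, Polynomial.map_sub, Polynomial.map_add, Polynomial.map_mul,
    map_C, map_X, map_pow, map_natCast] at h3
  rw [map_add, map_add, map_mul, map_mul, e1, e1, aeval_dvd B hdv] at h3
  obtain ⟨y, hy⟩ := det_add ((aeval B u).map φ) (aeval B' (c.map ψ)) ((p : S) ^ k)
  refine ⟨y, ?_⟩
  have h4 : ((aeval B' (C (ψ z) - X)) ^ n).det = B.charpoly.eval₂ φ (ψ z) ^ n := by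
    rw [Matrix.det_pow, h2]
  rw [← h4, h3]
  have h5 : ((0 : Matrix (Fin d) (Fin d) R).map φ) = 0 := by
    ext i j; simp
  rw [h5, zero_mul, add_zero]
  have h6 : φ ((aeval B u).det) = ((aeval B u).map φ).det := RingHom.map_det φ _
  rw [h6, ← hy]
  congr 2
  rw [Algebra.smul_def]
  congr 1
  simp

theorem unit_det {R : Type} [CommRing R] {d : ℕ} (B : Matrix (Fin d) (Fin d) R) {f : ℤ[X]}
    (hdv : B.charpoly ∣ f.map (algebraMap ℤ R)) {u v a : ℤ[X]} (huv : u * v = 1 + f * a) :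
    IsUnit (aeval B u).det := by
  have hu : aeval B u * aeval B v = 1 := by
    rw [← map_mul, huv, map_add, map_mul, map_one, aeval_dvd B hdv, zero_mul, add_zero]
  refine IsUnit.of_mul_eq_one (aeval B v).det ?_
  rw [← Matrix.det_mul, hu, Matrix.det_one]

theorem det_conj {R : Type} [CommRing R] {d : ℕ} (B : Matrix (Fin d) (Fin d) R) (σ : R →+* R)
    (u : ℤ[X]) : (aeval (B.map σ) u).det = σ ((aeval B u).det) := by
  rw [RingHom.map_det]
  congr 1
  have := Polynomial.hom_eval₂ u (algebraMap ℤ (Matrix (Fin d) (Fin d) R)) σ.mapMatrix B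
  rw [aeval_def, aeval_def]
  refine Eq.trans ?_ this.symm
  congr 1
  exact RingHom.ext_int _ _

/-- complex conjugation on the integers of a CM field -/
noncomputable def cc (K : Type) [Field K] [NumberField K] [IsCMField K] : 𝓞 K →+* 𝓞 K :=
  ((RingOfIntegers.mapRingEquiv (complexConj K).toRingEquiv : 𝓞 K ≃+* 𝓞 K) : 𝓞 K →+* 𝓞 K)

theorem cc_coe {K : Type} [Field K] [NumberField K] [IsCMField K] (x : 𝓞 K) :
    ((cc K x : 𝓞 K) : K) = complexConj K (x : K) := rfl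

theorem conj_pow {K : Type} [Field K] [NumberField K] [IsCMField K] {ε : 𝓞 K} (h : IsUnit ε) :
    ε ^ torsionOrder K = (cc K ε) ^ torsionOrder K := by
  obtain ⟨u, rfl⟩ := h
  have h1 : (unitsMulComplexConjInv K u) ^ torsionOrder K = 1 := pow_card_eq_one'
  have h2 := congrArg (fun t : torsion K => (t : (𝓞 K)ˣ)) h1
  simp only [SubmonoidClass.coe_pow, OneMemClass.coe_one] at h2
  rw [unitsMulComplexConjInv_apply, mul_pow, inv_pow, mul_inv_eq_one] at h2
  have h3 := congrArg (fun t : (𝓞 K)ˣ => (t : 𝓞 K)) h2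
  simp only [Units.val_pow_eq_pow_val] at h3
  exact h3

theorem sep {Ω : Type} [Field Ω] [Algebra ℚ_[p] Ω] [Algebra ℤ_[p] Ω] [IsScalarTower ℤ_[p] ℚ_[p] Ω]
    {x : Ω} (hx : IsAlgebraic ℤ_[p] x)
    (h : ∀ k : ℕ, ∃ y : Ω, IsIntegral ℤ_[p] y ∧ x = (p : Ω) ^ k * y) : x = 0 := by
  by_contra hx0
  obtain ⟨q, hq0, hq⟩ := hx.exists_nonzero_coeff_and_aeval_eq_zero
    (mem_nonZeroDivisors_of_ne_zero hx0)
  apply hq0
  haveI : CharZero Ω := charZero_of_injective_algebraMap (algebraMap ℚ_[p] Ω).injective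
  have hxi : IsIntegral ℤ_[p] x := by
    obtain ⟨y, hy, e⟩ := h 0
    rw [e, pow_zero, one_mul]
    exact hy
  have hp0 : (p : ℚ_[p]) ≠ 0 := Nat.cast_ne_zero.2 (Fact.out : p.Prime).ne_zero
  have key : ∀ k : ℕ, ∃ m : ℤ_[p], q.coeff 0 = (p : ℤ_[p]) ^ k * m := by
    intro k
    obtain ⟨y, hy, e⟩ := h k
    have h1 : algebraMap ℤ_[p] Ω (q.coeff 0) = (p : Ω) ^ k * (-(y * aeval x q.divX)) := by
      have h2 := divX_mul_X_add q
      have h3 := congrArg (aeval x) h2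
      rw [hq, map_add, map_mul, aeval_X, aeval_C] at h3
      have h4 : algebraMap ℤ_[p] Ω (q.coeff 0) = -(aeval x q.divX * x) :=
        eq_neg_of_add_eq_zero_right h3
      have h5 : aeval x q.divX * x = (p : Ω) ^ k * (y * aeval x q.divX) := by
        conv_lhs => rw [mul_comm, ]
        conv_lhs => arg 1; rw [e]
        ring
      rw [h4, h5]
      ring
    have hint : IsIntegral ℤ_[p] (-(y * aeval x q.divX)) :=
      (hy.mul (IsIntegral.of_mem_of_fg _ (hxi.fg_adjoin_singleton) _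
        (by rw [Algebra.adjoin_singleton_eq_range_aeval]; exact ⟨_, rfl⟩))).neg
    have h6 : -(y * aeval x q.divX) =
        algebraMap ℚ_[p] Ω (((q.coeff 0 : ℤ_[p]) : ℚ_[p]) / (p : ℚ_[p]) ^ k) := by
      rw [map_div₀, map_pow, map_natCast]
      have h7 : algebraMap ℚ_[p] Ω ((q.coeff 0 : ℤ_[p]) : ℚ_[p]) = algebraMap ℤ_[p] Ω (q.coeff 0) :=
        (IsScalarTower.algebraMap_apply ℤ_[p] ℚ_[p] Ω _).symm
      rw [h7, h1]
      have h8 : (p : Ω) ^ k ≠ 0 := pow_ne_zero _ (Nat.cast_ne_zero.2 (Fact.out : p.Prime).ne_zero)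
      field_simp
    rw [h6] at hint
    have h9 := (isIntegral_algebraMap_iff (algebraMap ℚ_[p] Ω).injective).1 hint
    obtain ⟨m, hm⟩ := (IsIntegrallyClosed.isIntegral_iff (R := ℤ_[p]) (K := ℚ_[p])).1 h9
    refine ⟨m, ?_⟩
    apply PadicInt.ext
    rw [PadicInt.coe_mul, PadicInt.coe_pow, PadicInt.coe_natCast]
    have h10 : (m : ℚ_[p]) = ((q.coeff 0 : ℤ_[p]) : ℚ_[p]) / (p : ℚ_[p]) ^ k := hm
    rw [h10]
    field_simp
  rw [← PadicInt.ext_of_toZModPow]
  intro k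
  obtain ⟨m, hm⟩ := key k
  rw [hm, map_mul, map_pow, map_natCast, map_zero]
  have : ((p : ZMod (p ^ k)) ^ k) = 0 := by
    rw [← Nat.cast_pow, ZMod.natCast_self]
  rw [this, zero_mul]

/-- a polynomial over a CM field and its conjugate at a point of level one -/
theorem cm_pow {K : Type} [Field K] [NumberField K] [IsCMField K] {Ω : Type} [Field Ω]
    [Algebra ℚ_[p] Ω] [Algebra ℤ_[p] Ω] [IsScalarTower ℤ_[p] ℚ_[p] Ω]
    (ι : K →+* Ω) {f : ℤ[X]} {P : (𝓞 K)[X]} (hP : P.Monic)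
    (hPf : P ∣ f.map (algebraMap ℤ (𝓞 K))) {z : ℤ_[p]} {n : ℕ} (h : Approx p f z n) :
    (P.eval₂ (ι.comp (algebraMap (𝓞 K) K)) (algebraMap ℤ_[p] Ω z)) ^ (n * torsionOrder K) =
    ((P.map (cc K)).eval₂ (ι.comp (algebraMap (𝓞 K) K)) (algebraMap ℤ_[p] Ω z)) ^
      (n * torsionOrder K) := by
  obtain ⟨d, B, rfl⟩ := exists_companion' P hP
  let S := integralClosure ℤ_[p] Ω
  have hι : ∀ x : 𝓞 K, (ι.comp (algebraMap (𝓞 K) K)) x ∈ S := by
    intro x
    have h1 : IsIntegral ℤ (ι (x : K)) := map_isIntegral_int ι x.2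
    exact h1.tower_top
  let φ : 𝓞 K →+* S := (ι.comp (algebraMap (𝓞 K) K)).codRestrict S hι
  let ψ : ℤ_[p] →+* S := algebraMap ℤ_[p] S
  have hBc : (B.map (cc K)).charpoly = B.charpoly.map (cc K) := Matrix.charpoly_map B (cc K)
  have hdv : (B.map (cc K)).charpoly ∣ f.map (algebraMap ℤ (𝓞 K)) := by
    rw [hBc]
    have h1 := Polynomial.map_dvd (cc K) hPf
    rw [Polynomial.map_map] at h1
    have h2 : (cc K).comp (algebraMap ℤ (𝓞 K)) = algebraMap ℤ (𝓞 K) := RingHom.ext_int _ _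
    rwa [h2] at h1
  obtain ⟨M, hM⟩ : ∃ M, M = torsionOrder K := ⟨_, rfl⟩
  set A : S := B.charpoly.eval₂ φ (ψ z) with hA
  set A' : S := (B.charpoly.map (cc K)).eval₂ φ (ψ z) with hA'
  have key : ∀ k : ℕ, (p : S) ^ k ∣ A ^ (n * M) - A' ^ (n * M) := by
    intro k
    obtain ⟨u, ⟨v, a, huv⟩, b, c, hk⟩ := h k
    obtain ⟨y, hy⟩ := cong φ ψ B hPf hk
    obtain ⟨y', hy'⟩ := cong φ ψ (B.map (cc K)) hdv hk
    rw [hBc, det_conj] at hy'
    have hu := conj_pow (unit_det B hPf huv)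
    obtain ⟨ε, hε⟩ : ∃ ε, ε = (aeval B u).det := ⟨_, rfl⟩
    rw [← hε] at hu hy hy'
    rw [← hA] at hy
    rw [← hA'] at hy'
    have d1 : (p : S) ^ k ∣ (A ^ n) ^ M - (φ ε) ^ M :=
      Dvd.dvd.trans ⟨y, by rw [hy]; ring⟩ (sub_dvd_pow_sub_pow _ _ _)
    have d2 : (p : S) ^ k ∣ (A' ^ n) ^ M - (φ (cc K ε)) ^ M :=
      Dvd.dvd.trans ⟨y', by rw [hy']; ring⟩ (sub_dvd_pow_sub_pow _ _ _)
    have e : (φ ε) ^ M = (φ (cc K ε)) ^ M := by
      rw [← map_pow, ← map_pow, hM, hu]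
    have := dvd_sub d1 d2
    rw [e] at this
    rw [pow_mul, pow_mul]
    have e2 : (A ^ n) ^ M - (φ (cc K ε)) ^ M - ((A' ^ n) ^ M - (φ (cc K ε)) ^ M) =
        (A ^ n) ^ M - (A' ^ n) ^ M := by ring
    rwa [e2] at this
  have hco : ∀ Q : (𝓞 K)[X], ((Q.eval₂ φ (ψ z) : S) : Ω) =
      Q.eval₂ (ι.comp (algebraMap (𝓞 K) K)) (algebraMap ℤ_[p] Ω z) := by
    intro Q
    exact Polynomial.hom_eval₂ Q φ (S.val : S →+* Ω) (ψ z)
  rw [← hco, ← hco, ← hM, ← hA, ← hA', ← sub_eq_zero]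
  have hin : IsIntegral ℤ_[p] ((A ^ (n * M) - A' ^ (n * M) : S) : Ω) := (A ^ (n * M) - A' ^ (n * M) : S).2
  have hfin : ((A ^ (n * M) - A' ^ (n * M) : S) : Ω) = 0 := by
    refine sep hin.isAlgebraic fun k => ?_
    obtain ⟨y, hy⟩ := key k
    refine ⟨(y : Ω), y.2, ?_⟩
    rw [hy]
    push_cast
    rfl
  simpa using hfin

end

end Pool.Agent.H76K
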