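import Pool.Agent.H76K.F

/-!
# Torsion points of divisors with a component over a CM field
-/

set_option autoImplicit false
set_option linter.all false

open Polynomial NumberField NumberField.IsCMField NumberField.Units
open scoped Classical

namespace Pool.Agent.H76K

open Pool.Agent.N874.WG

theorem cj_hom {K L : Type} [Field K] [CommRing L] [Nontrivial L] (φ : K →+* L) (t : K) :
    Cj t (φ t) := by
  intro Q
  have h := Polynomial.hom_eval₂ Q (algebraMap ℤ K) φ t
  have e : φ.comp (algebraMap ℤ K) = algebraMap ℤ L := RingHom.ext_int _ _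
  rw [e] at h
  rw [aeval_def, aeval_def, ← h, map_eq_zero]

theorem Cj.symm {K L : Type} [CommRing K] [CommRing L] {z : K} {r : L} (h : Cj z r) : Cj r z :=
  fun Q => (h Q).symm

theorem Cj.trans {K L M : Type} [CommRing K] [CommRing L] [CommRing M] {z : K} {r : L} {s : M}
    (h : Cj z r) (h' : Cj r s) : Cj z s := fun Q => (h Q).trans (h' Q)

theorem Cj.integral {K L : Type} [CommRing K] [CommRing L] {z : K} {r : L} (h : Cj z r)
    (hz : IsIntegral ℤ z) : IsIntegral ℤ r := by
  obtain ⟨q, hq, h0⟩ := hz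
  exact ⟨q, hq, by rw [← aeval_def] at h0 ⊢; exact (h q).1 h0⟩

/-- the value of a polynomial over the integers of `K` -/
noncomputable def ev {K L : Type} [Field K] [Field L] (τ : K →+* L) (P : (𝓞 K)[X])
    (w : L) : L := P.eval₂ (τ.comp (algebraMap (𝓞 K) K)) w

/-- the conditions on torsion points from CM fields -/
def CMTor (f : ℤ[X]) (w : ℂ) : Prop :=
  ∀ (K : Type) [Field K] [NumberField K] [IsCMField K] (τ : K →+* ℂ) (P : (𝓞 K)[X]), P.Monic →
    P ∣ f.map (algebraMap ℤ (𝓞 K)) → ∃ N : ℕ, 0 < N ∧ ev τ P w ^ N = ev τ (P.map (cc K)) w ^ N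

theorem ev_hom {K L M : Type} [Field K] [Field L] [Field M] (τ : K →+* L) (χ : L →+* M)
    (P : (𝓞 K)[X]) (w : L) : ev (χ.comp τ) P (χ w) = χ (ev τ P w) := by
  unfold ev
  rw [Polynomial.hom_eval₂]
  rfl

section

variable {p : ℕ} [Fact p.Prime]

theorem tor_cm {f : ℤ[X]} {z : ℤ_[p]} {n : ℕ} (hn : 0 < n) (h : Approx p f z n)
    (hz : IsIntegral ℤ (z : ℚ_[p])) {w : ℂ} (hw : Cj z w) : CMTor f w := by
  intro K _ _ _ τ P hP hPf
  let Ω := AlgebraicClosure ℚ_[p]
  let F := algebraicClosure ℚ ℂ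
  have hwi : IsIntegral ℤ w := (cj_coe.2 hw).integral hz
  have hwa : w ∈ F := by
    rw [mem_algebraicClosure_iff]
    exact hwi.tower_top.isAlgebraic
  let w' : F := ⟨w, hwa⟩
  let z' : Ω := algebraMap ℤ_[p] Ω z
  have hz' : Cj z z' := by
    intro Q
    have h1 : z' = algebraMap ℚ_[p] Ω (z : ℚ_[p]) := IsScalarTower.algebraMap_apply ℤ_[p] ℚ_[p] Ω z
    rw [h1]
    exact (cj_coe.1 (cj_hom (algebraMap ℚ_[p] Ω) (z : ℚ_[p]))) Q
  have hw' : Cj w' w := cj_hom (F.val : F →+* ℂ) w'
  haveI : Algebra.IsAlgebraic ℚ F := algebraicClosure.isAlgebraic ℚ ℂ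
  have hwi' : IsIntegral ℤ w' := hw'.symm.integral hwi
  obtain ⟨χ, hχ⟩ : ∃ χ : F →ₐ[ℚ] Ω, χ w' = z' := by
    have h1 := Algebra.IsAlgebraic.range_eval_eq_rootSet_minpoly (F := ℚ) (K := F) Ω w'
    have h2 : z' ∈ (minpoly ℚ w').rootSet Ω := by
      rw [mem_rootSet]
      refine ⟨minpoly.ne_zero hwi'.tower_top, ?_⟩
      rw [minpoly.isIntegrallyClosed_eq_field_fractions' ℚ hwi', aeval_map_algebraMap]
      exact (hz'.symm.trans (hw.trans hw'.symm) _).2 (minpoly.aeval _ _)
    rw [← h1] at h2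
    exact h2
  have hτ : ∀ x : K, τ x ∈ F := by
    intro x
    rw [mem_algebraicClosure_iff]
    have h1 : IsIntegral ℚ x := Algebra.IsIntegral.isIntegral x
    have h2 : IsIntegral ℚ (τ.toRatAlgHom x) := h1.map τ.toRatAlgHom
    exact h2.isAlgebraic
  let τ' : K →+* F := τ.codRestrict F hτ
  have hτ' : (F.val : F →+* ℂ).comp τ' = τ := rfl
  refine ⟨n * torsionOrder K, Nat.mul_pos hn (torsionOrder_pos K), ?_⟩
  have key := cm_pow (Ω := Ω) ((χ : F →+* Ω).comp τ') hP hPf h
  change ev ((χ : F →+* Ω).comp τ') P z' ^ _ = ev ((χ : F →+* Ω).comp τ') (P.map (cc K)) z' ^ _ at key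
  have hχ' : z' = (χ : F →+* Ω) w' := hχ.symm
  rw [hχ', ev_hom, ev_hom, ← map_pow, ← map_pow] at key
  have key2 := (χ : F →+* Ω).injective key
  have key3 := congrArg (F.val : F →+* ℂ) key2
  rw [map_pow, map_pow, ← ev_hom, ← ev_hom, hτ'] at key3
  exact key3

theorem card_le {s : Set ℤ_[p]} {T : Set ℂ} (hT : T.Finite)
    (h1 : ∀ z ∈ s, IsIntegral ℤ (z : ℚ_[p])) (h2 : ∀ z ∈ s, ∀ w : ℂ, Cj z w → w ∈ T) :
    s.Finite ∧ s.ncard ≤ T.ncard := by
  let F := algebraicClosure ℚ ℚ_[p]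
  haveI : Algebra.IsAlgebraic ℚ F := algebraicClosure.isAlgebraic ℚ ℚ_[p]
  let ψ : F →ₐ[ℚ] ℂ := IsAlgClosed.lift
  have hF : ∀ z ∈ s, (z : ℚ_[p]) ∈ F := by
    intro z hz
    rw [mem_algebraicClosure_iff]
    exact (h1 z hz).tower_top.isAlgebraic
  let e : ℤ_[p] → ℂ := fun z => if h : (z : ℚ_[p]) ∈ F then ψ ⟨z, h⟩ else 0
  have he : ∀ z (hz : z ∈ s), e z = ψ ⟨z, hF z hz⟩ := fun z hz => dif_pos (hF z hz)
  have hmaps : ∀ z ∈ s, e z ∈ T := by
    intro z hz
    refine h2 z hz _ ?_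
    rw [he z hz]
    refine cj_coe.1 ?_
    exact (cj_hom (F.val : F →+* ℚ_[p]) ⟨z, hF z hz⟩).symm.trans (cj_hom (ψ : F →+* ℂ) _)
  have hinj : Set.InjOn e s := by
    intro a ha b hb hab
    rw [he a ha, he b hb] at hab
    have := ψ.injective hab
    have h3 := congrArg (fun t : F => (t : ℚ_[p])) this
    exact PadicInt.ext h3
  exact ⟨hT.of_injOn hmaps hinj, Set.ncard_le_ncard_of_injOn e hmaps hinj hT⟩

end

section resultant

/-- `g(z) g(w) - 1` -/
noncomputable def E0 (g : ℂ[X]) : ℂ[X][X] := C g * g.map C - 1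

/-- `A(z) A'(w) - A'(z) A(w)` -/
noncomputable def E1 (A A' : ℂ[X]) : ℂ[X][X] := C A * A'.map C - C A' * A.map C

noncomputable def RC (g A A' : ℂ[X]) : ℂ[X] := resultant (E0 g) (E1 A A') g.natDegree A.natDegree

variable {g A A' : ℂ[X]}

theorem E0_natDegree : (E0 g).natDegree ≤ g.natDegree := by
  unfold E0
  refine (natDegree_sub_le _ _).trans (max_le ?_ (by simp))
  exact (natDegree_C_mul_le _ _).trans natDegree_map_le

theorem E1_natDegree (h : A'.natDegree = A.natDegree) : (E1 A A').natDegree ≤ A.natDegree := by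
  unfold E1
  refine (natDegree_sub_le _ _).trans (max_le ?_ ?_)
  · exact ((natDegree_C_mul_le _ _).trans natDegree_map_le).trans h.le
  · exact (natDegree_C_mul_le _ _).trans natDegree_map_le

theorem E0_coeff (k : ℕ) : ((E0 g).coeff k).natDegree ≤ g.natDegree := by
  unfold E0
  rw [coeff_sub, coeff_C_mul, coeff_map]
  refine (natDegree_sub_le _ _).trans (max_le (natDegree_mul_C_le _ _) ?_)
  rw [coeff_one]
  split_ifs <;> simp

theorem E1_coeff (h : A'.natDegree = A.natDegree) (k : ℕ) :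
    ((E1 A A').coeff k).natDegree ≤ A.natDegree := by
  unfold E1
  rw [coeff_sub, coeff_C_mul, coeff_map, coeff_C_mul, coeff_map]
  exact (natDegree_sub_le _ _).trans (max_le (natDegree_mul_C_le _ _)
    ((natDegree_mul_C_le _ _).trans h.le))

theorem RC_natDegree (h : A'.natDegree = A.natDegree) :
    (RC g A A').natDegree ≤ 2 * (g.natDegree * A.natDegree) := by
  unfold RC resultant
  rw [Matrix.det_apply]
  refine natDegree_sum_le_of_forall_le _ _ fun σ _ => ?_
  have h0 : (Equiv.Perm.sign σ • ∏ i, sylvester (E0 g) (E1 A A') g.natDegree A.natDegree (σ i) i).natDegree ≤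
      (∏ i, sylvester (E0 g) (E1 A A') g.natDegree A.natDegree (σ i) i).natDegree := by
    rcases Int.units_eq_one_or (Equiv.Perm.sign σ) with h | h <;> rw [h] <;> simp
  refine h0.trans ?_
  refine (natDegree_prod_le _ _).trans ?_
  rw [Fin.sum_univ_add]
  have h1 : ∀ j : Fin g.natDegree, (sylvester (E0 g) (E1 A A') g.natDegree A.natDegree
      (σ (Fin.castAdd A.natDegree j)) (Fin.castAdd A.natDegree j)).natDegree ≤ A.natDegree := by
    intro j
    simp only [sylvester, Matrix.of_apply, Fin.addCases_left]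
    split_ifs
    · exact E1_coeff h _
    · simp
  have h2 : ∀ j : Fin A.natDegree, (sylvester (E0 g) (E1 A A') g.natDegree A.natDegree
      (σ (Fin.natAdd g.natDegree j)) (Fin.natAdd g.natDegree j)).natDegree ≤ g.natDegree := by
    intro j
    simp only [sylvester, Matrix.of_apply, Fin.addCases_right]
    split_ifs
    · exact E0_coeff _
    · simp
  refine (Nat.add_le_add (Finset.sum_le_sum fun j _ => h1 j) (Finset.sum_le_sum fun j _ => h2 j)).trans ?_
  simp only [Finset.sum_const, Finset.card_univ, Fintype.card_fin, smul_eq_mul]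
  rw [mul_comm A.natDegree g.natDegree, two_mul]

theorem RC_root (h : A'.natDegree = A.natDegree) (hg : 0 < g.natDegree) {z w : ℂ}
    (h1 : g.eval z * g.eval w = 1) (h2 : A.eval z * A'.eval w = A'.eval z * A.eval w) :
    (RC g A A').eval z = 0 := by
  obtain ⟨P, Q, -, -, e⟩ := exists_mul_add_mul_eq_C_resultant (m := g.natDegree) (n := A.natDegree)
    (E0 g) (E1 A A') E0_natDegree (E1_natDegree h) (Or.inl hg.ne')
  have e2 := congrArg (eval₂ (evalRingHom z) w) e
  have k : ∀ q : ℂ[X], eval₂ (evalRingHom z) w (q.map C) = q.eval w := by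
    intro q
    rw [eval₂_map]
    have : (evalRingHom z).comp (C : ℂ →+* ℂ[X]) = RingHom.id ℂ := by
      ext x; simp
    rw [this]
    rfl
  rw [eval₂_add, eval₂_mul, eval₂_mul, eval₂_C] at e2
  have k0 : eval₂ (evalRingHom z) w (E0 g) = 0 := by
    unfold E0
    rw [eval₂_sub, eval₂_mul, eval₂_C, eval₂_one, k]
    simp [h1]
  have k1 : eval₂ (evalRingHom z) w (E1 A A') = 0 := by
    unfold E1
    rw [eval₂_sub, eval₂_mul, eval₂_mul, eval₂_C, eval₂_C, k, k]
    simp [h2]
  rw [k0, k1, zero_mul, zero_mul, add_zero] at e2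
  exact e2.symm

theorem RC_ne (hA : A.Monic) {α : ℂ} (h0 : g.eval α = 0) (h1 : A.eval α = 0)
    (h2 : A'.eval α ≠ 0) : RC g A A' ≠ 0 := by
  intro h3
  have key : ∀ q : ℂ[X], (q.map C).map (evalRingHom α) = q := by
    intro q
    rw [Polynomial.map_map]
    have : (evalRingHom α).comp (C : ℂ →+* ℂ[X]) = RingHom.id ℂ := by
      ext x; simp
    rw [this, Polynomial.map_id]
  have e := resultant_map_map (E0 g) (E1 A A') g.natDegree A.natDegree (evalRingHom α)
  change _ = (evalRingHom α) (RC g A A') at e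
  have k0 : (E0 g).map (evalRingHom α) = C (-1) := by
    unfold E0
    rw [Polynomial.map_sub, Polynomial.map_mul, map_C, Polynomial.map_one, key]
    simp [h0]
  have k1 : (E1 A A').map (evalRingHom α) = C (-(A'.eval α)) * A := by
    unfold E1
    rw [Polynomial.map_sub, Polynomial.map_mul, map_C, Polynomial.map_mul, map_C, key, key]
    simp [h1]
  rw [h3, map_zero, k0, k1, resultant_C_left] at e
  have h4 : (C (-(A'.eval α)) * A).coeff A.natDegree ≠ 0 := by
    rw [coeff_C_mul, hA.coeff_natDegree, mul_one]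
    exact neg_ne_zero.2 h2
  exact mul_ne_zero (mul_ne_zero (pow_ne_zero _ (by norm_num)) (pow_ne_zero _ h4))
    (pow_ne_zero _ (by norm_num)) e

end resultant

end Pool.Agent.H76K
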