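import Pool.Agent.H76K.G

/-!
# Torsion points of divisors with a component over a CM field, II
-/

set_option autoImplicit false
set_option linter.all false

open Polynomial NumberField NumberField.IsCMField NumberField.Units
open scoped Classical

namespace Pool.Agent.H76K

open Pool.Agent.N874.WG

section conj

variable {K : Type} [Field K] [NumberField K] [IsCMField K]

theorem cc_cc (P : (𝓞 K)[X]) : (P.map (cc K)).map (cc K) = P := by
  rw [Polynomial.map_map]
  have : (cc K).comp (cc K) = RingHom.id _ := by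
    ext x
    simp only [RingHom.comp_apply, RingHom.id_apply, cc_coe]
    exact complexConj_apply_apply K _
  rw [this, Polynomial.map_id]

theorem conj_ev (τ : K →+* ℂ) (P : (𝓞 K)[X]) (w : ℂ) :
    (starRingEnd ℂ) (ev τ P w) = ev τ (P.map (cc K)) ((starRingEnd ℂ) w) := by
  unfold ev
  rw [Polynomial.hom_eval₂, eval₂_map]
  congr 1
  ext x
  exact (complexEmbedding_complexConj K τ (x : K)).symm

theorem CMTor.norm {f : ℤ[X]} {w : ℂ} (h : CMTor f w) (τ : K →+* ℂ) {P : (𝓞 K)[X]} (hP : P.Monic)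
    (hPf : P ∣ f.map (algebraMap ℤ (𝓞 K))) : ‖ev τ P w‖ = ‖ev τ (P.map (cc K)) w‖ := by
  obtain ⟨N, hN, e⟩ := h K τ P hP hPf
  have e2 := congrArg (fun t : ℂ => ‖t‖) e
  simp only [norm_pow] at e2
  exact (pow_left_inj₀ (norm_nonneg _) (norm_nonneg _) hN.ne').1 e2

theorem CMTor.eq {f : ℤ[X]} {w : ℂ} (h : CMTor f w) (τ : K →+* ℂ) {P : (𝓞 K)[X]} (hP : P.Monic)
    (hPf : P ∣ f.map (algebraMap ℤ (𝓞 K))) :
    ev τ P w * ev τ (P.map (cc K)) ((starRingEnd ℂ) w) =
      ev τ (P.map (cc K)) w * ev τ P ((starRingEnd ℂ) w) := by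
  have h1 := conj_ev τ P w
  have h2 := conj_ev τ (P.map (cc K)) w
  rw [cc_cc] at h2
  rw [← h1, ← h2, Complex.mul_conj, Complex.mul_conj, Complex.normSq_eq_norm_sq,
    Complex.normSq_eq_norm_sq, h.norm τ hP hPf]

/-- the polynomial over `ℂ` -/
noncomputable def toC (τ : K →+* ℂ) (P : (𝓞 K)[X]) : ℂ[X] := P.map (τ.comp (algebraMap (𝓞 K) K))

theorem toC_eval (τ : K →+* ℂ) (P : (𝓞 K)[X]) (w : ℂ) : (toC τ P).eval w = ev τ P w := by
  unfold toC ev
  rw [eval_map]

theorem toC_natDegree (τ : K →+* ℂ) {P : (𝓞 K)[X]} (hP : P.Monic) :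
    (toC τ P).natDegree = P.natDegree := hP.natDegree_map _

theorem cm_root {f g : ℤ[X]} {w : ℂ} (hw : IsTor f w) (h : CMTor f w) (hg : g.Monic)
    (hgf : g ∣ f) (hd : 0 < g.natDegree) (τ : K →+* ℂ) {P : (𝓞 K)[X]} (hP : P.Monic)
    (hPf : P ∣ f.map (algebraMap ℤ (𝓞 K))) :
    (RC (g.map (algebraMap ℤ ℂ)) (toC τ P) (toC τ (P.map (cc K)))).eval w = 0 := by
  have hgd : (g.map (algebraMap ℤ ℂ)).natDegree = g.natDegree := hg.natDegree_map _
  refine RC_root (w := (starRingEnd ℂ) w) ?_ (by rw [hgd]; exact hd) ?_ ?_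
  · rw [toC_natDegree τ hP, toC_natDegree τ (hP.map _), hP.natDegree_map]
  · obtain ⟨n, hn, h1⟩ := hw g hg hgf
    have h2 := norm_one hn h1
    rw [eval_map_algebraMap, eval_map_algebraMap]
    have e : aeval ((starRingEnd ℂ) w) g = (starRingEnd ℂ) (aeval w g) := by
      have := Polynomial.hom_eval₂ g (algebraMap ℤ ℂ) (starRingEnd ℂ) w
      rw [aeval_def, aeval_def, this]
      congr 1
      ext a
      simp
    rw [e, Complex.mul_conj, Complex.normSq_eq_norm_sq, h2]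
    norm_num
  · rw [toC_eval, toC_eval, toC_eval, toC_eval]
    exact h.eq τ hP hPf

/-- there are few torsion points -/
theorem cm_finite {f g : ℤ[X]} (hg : g.Monic) (hgf : g ∣ f) {P : (𝓞 K)[X]} (hP : P.Monic)
    (hPd : 0 < P.natDegree) (hPg : P ∣ g.map (algebraMap ℤ (𝓞 K)))
    (hco : IsCoprime (P.map (algebraMap (𝓞 K) K)) ((P.map (cc K)).map (algebraMap (𝓞 K) K))) :
    {w : ℂ | IsTor f w ∧ CMTor f w}.Finite ∧
      {w : ℂ | IsTor f w ∧ CMTor f w}.ncard ≤ 2 * (g.natDegree * P.natDegree) := by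
  obtain ⟨τ⟩ : Nonempty (K →+* ℂ) := inferInstance
  have hd : 0 < g.natDegree := by
    have h1 := natDegree_le_of_dvd hPg (hg.map _).ne_zero
    rw [hg.natDegree_map] at h1
    omega
  have hgd : (g.map (algebraMap ℤ ℂ)).natDegree = g.natDegree := hg.natDegree_map _
  have hPf : P ∣ f.map (algebraMap ℤ (𝓞 K)) := hPg.trans (Polynomial.map_dvd _ hgf)
  obtain ⟨R, hR⟩ : ∃ R, R = RC (g.map (algebraMap ℤ ℂ)) (toC τ P) (toC τ (P.map (cc K))) :=
    ⟨_, rfl⟩
  have hAA : (toC τ (P.map (cc K))).natDegree = (toC τ P).natDegree := by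
    rw [toC_natDegree τ hP, toC_natDegree τ (hP.map _), hP.natDegree_map]
  have hR0 : R ≠ 0 := by
    have hA : (toC τ P).Monic := hP.map _
    obtain ⟨α, hα⟩ := IsAlgClosed.exists_root (toC τ P)
      (natDegree_pos_iff_degree_pos.1 (by rw [toC_natDegree τ hP]; exact hPd)).ne'
    rw [hR]
    refine RC_ne hA ?_ hα ?_
    · have h1 := Polynomial.map_dvd (τ.comp (algebraMap (𝓞 K) K)) hPg
      rw [Polynomial.map_map] at h1
      have h2 : (τ.comp (algebraMap (𝓞 K) K)).comp (algebraMap ℤ (𝓞 K)) = algebraMap ℤ ℂ :=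
        RingHom.ext_int _ _
      rw [h2] at h1
      exact eval_eq_zero_of_dvd_of_eval_eq_zero h1 hα
    · intro h1
      have h2 := hco.map (mapRingHom τ)
      rw [coe_mapRingHom, Polynomial.map_map, Polynomial.map_map] at h2
      obtain ⟨a, b, h3⟩ := h2
      have h4 := congrArg (eval α) h3
      have h5 : eval α (P.map (τ.comp (algebraMap (𝓞 K) K))) = 0 := hα
      have h6 : eval α ((P.map (cc K)).map (τ.comp (algebraMap (𝓞 K) K))) = 0 := h1
      rw [eval_add, eval_mul, eval_mul, h5, h6, mul_zero, mul_zero, add_zero, eval_one] at h4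
      exact zero_ne_one h4
  have hsub : {w : ℂ | IsTor f w ∧ CMTor f w} ⊆ (R.roots.toFinset : Set ℂ) := by
    intro w hw
    rw [Finset.mem_coe, Multiset.mem_toFinset, mem_roots hR0, IsRoot.def, hR]
    exact cm_root hw.1 hw.2 hg hgf hd τ hP hPf
  refine ⟨(Finset.finite_toSet _).subset hsub, ?_⟩
  refine (Set.ncard_le_ncard hsub (Finset.finite_toSet _)).trans ?_
  rw [Set.ncard_coe_finset]
  refine (Multiset.toFinset_card_le _).trans ((card_roots' _).trans ?_)
  have h7 := RC_natDegree (g := g.map (algebraMap ℤ ℂ)) hAA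
  rw [hgd, toC_natDegree τ hP] at h7
  rw [hR]
  exact h7

/-- real values -/
theorem CMTor.real {f U : ℤ[X]} {θ : 𝓞 K} (hθ : cc K θ ≠ θ) (hU : U.Monic)
    (hUd : 0 < U.natDegree)
    (hd : (U.map (algebraMap ℤ (𝓞 K)) - C θ) ∣ f.map (algebraMap ℤ (𝓞 K))) {w : ℂ}
    (h : CMTor f w) : (aeval w U).im = 0 := by
  obtain ⟨τ⟩ : Nonempty (K →+* ℂ) := inferInstance
  have hm : (U.map (algebraMap ℤ (𝓞 K)) - C θ).Monic := by
    refine (hU.map _).sub_of_left (degree_C_le.trans_lt ?_)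
    rw [← natDegree_pos_iff_degree_pos, hU.natDegree_map]
    exact hUd
  have h1 := h.norm τ hm hd
  have e1 : ev τ (U.map (algebraMap ℤ (𝓞 K)) - C θ) w = aeval w U - τ θ := by
    unfold ev
    rw [eval₂_sub, eval₂_C, eval₂_map, aeval_def]
    have e : (τ.comp (algebraMap (𝓞 K) K)).comp (algebraMap ℤ (𝓞 K)) = algebraMap ℤ ℂ :=
      RingHom.ext_int _ _
    rw [e]
    rfl
  have e2 : ev τ ((U.map (algebraMap ℤ (𝓞 K)) - C θ).map (cc K)) w =
      aeval w U - (starRingEnd ℂ) (τ θ) := by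
    unfold ev
    rw [Polynomial.map_sub, map_C, eval₂_sub, eval₂_C, eval₂_map, eval₂_map, aeval_def]
    have e : ((τ.comp (algebraMap (𝓞 K) K)).comp (cc K)).comp (algebraMap ℤ (𝓞 K)) =
      algebraMap ℤ ℂ := RingHom.ext_int _ _
    rw [e]
    congr 1
    exact complexEmbedding_complexConj K τ (θ : K)
  rw [e1, e2] at h1
  have him : (τ θ).im ≠ 0 := by
    intro h2
    apply hθ
    have h3 : (starRingEnd ℂ) (τ θ) = τ θ := Complex.conj_eq_iff_im.2 h2
    have h4 : τ (complexConj K (θ : K)) = τ θ := by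
      rw [complexEmbedding_complexConj, h3]
    exact RingOfIntegers.ext (τ.injective h4)
  have h5 : ‖aeval w U - τ θ‖ ^ 2 = ‖aeval w U - (starRingEnd ℂ) (τ θ)‖ ^ 2 := by rw [h1]
  rw [← Complex.normSq_eq_norm_sq, ← Complex.normSq_eq_norm_sq, Complex.normSq_apply,
    Complex.normSq_apply] at h5
  simp only [Complex.sub_re, Complex.sub_im, Complex.conj_re, Complex.conj_im] at h5
  have h6 : (aeval w U).im * (τ θ).im = 0 := by nlinarith
  exact (mul_eq_zero.1 h6).resolve_right him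

theorem dvd_comp' {f g U : ℤ[X]} {θ : 𝓞 K} (h0 : aeval θ g = 0) (h : g.comp U ∣ f) :
    (U.map (algebraMap ℤ (𝓞 K)) - C θ) ∣ f.map (algebraMap ℤ (𝓞 K)) := by
  have h1 : X - C θ ∣ g.map (algebraMap ℤ (𝓞 K)) := by
    rw [dvd_iff_isRoot, IsRoot.def, eval_map_algebraMap]
    exact h0
  obtain ⟨q, hq⟩ := h1
  have h2 : (U.map (algebraMap ℤ (𝓞 K)) - C θ) ∣ (g.comp U).map (algebraMap ℤ (𝓞 K)) := by
    rw [Polynomial.map_comp, hq, mul_comp]
    exact ⟨q.comp (U.map (algebraMap ℤ (𝓞 K))), by rw [sub_comp, X_comp, C_comp]⟩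
  exact h2.trans (Polynomial.map_dvd _ h)

end conj

theorem Cj.aeval {K L : Type} [CommRing K] [CommRing L] {z : K} {r : L} (h : Cj z r) (U : ℤ[X]) :
    Cj (Polynomial.aeval z U) (Polynomial.aeval r U) := by
  intro Q
  rw [← aeval_comp, ← aeval_comp]
  exact h _

/-- conjugates of a value -/
theorem lift_conj {K : Type} [CommRing K] {z : K} {w : ℂ} (hw : Cj z w) (hwi : IsIntegral ℤ w)
    (U : ℤ[X]) {y : ℂ} (hy : Cj (aeval z U) y) : ∃ w' : ℂ, Cj z w' ∧ aeval w' U = y := by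
  let F := algebraicClosure ℚ ℂ
  haveI : Algebra.IsAlgebraic ℚ F := algebraicClosure.isAlgebraic ℚ ℂ
  have hwa : w ∈ F := by
    rw [mem_algebraicClosure_iff]
    exact hwi.tower_top.isAlgebraic
  let w0 : F := ⟨w, hwa⟩
  have hw0 : Cj w0 w := cj_hom (F.val : F →+* ℂ) w0
  have hwi0 : IsIntegral ℤ w0 := hw0.symm.integral hwi
  have hy0 : Cj (aeval w0 U) y := ((hw0.trans hw.symm).aeval U).trans hy
  have hyi0 : IsIntegral ℤ (aeval w0 U) := by
    exact (IsIntegral.of_mem_of_fg _ (hwi0.fg_adjoin_singleton) _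
        (by rw [Algebra.adjoin_singleton_eq_range_aeval]; exact ⟨_, rfl⟩))
  obtain ⟨χ, hχ⟩ : ∃ χ : F →ₐ[ℚ] ℂ, χ (aeval w0 U) = y := by
    have h1 := Algebra.IsAlgebraic.range_eval_eq_rootSet_minpoly (F := ℚ) (K := F) ℂ (aeval w0 U)
    have h2 : y ∈ (minpoly ℚ (aeval w0 U)).rootSet ℂ := by
      rw [mem_rootSet]
      refine ⟨minpoly.ne_zero hyi0.tower_top, ?_⟩
      rw [minpoly.isIntegrallyClosed_eq_field_fractions' ℚ hyi0, aeval_map_algebraMap]
      exact (hy0 _).1 (minpoly.aeval _ _)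
    rw [← h1] at h2
    exact h2
  refine ⟨χ w0, (hw.trans hw0.symm).trans (cj_hom (χ : F →+* ℂ) w0), ?_⟩
  rw [← hχ]
  have h3 := Polynomial.hom_eval₂ U (algebraMap ℤ F) (χ : F →+* ℂ) w0
  rw [aeval_def, aeval_def]
  refine Eq.trans ?_ h3.symm
  congr 1
  exact RingHom.ext_int _ _

/-- a real algebraic integer with all conjugates in `[-1, 1]` -/
theorem small_int {K : Type} [Field K] [CharZero K] {y : K} (hy : IsIntegral ℤ y)
    (h : ∀ y' : ℂ, Cj y y' → y'.im = 0 ∧ |y'.re| ≤ 1) : y = 0 ∨ y = 1 ∨ y = -1 := by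
  obtain ⟨m, hm⟩ : ∃ m, m = minpoly ℤ y := ⟨_, rfl⟩
  have hmm : m.Monic := hm ▸ minpoly.monic hy
  have hroots : ∀ r ∈ (m.map (algebraMap ℤ ℂ)).roots, Cj y r := by
    intro r hr
    have h1 := isRoot_of_mem_roots hr
    rw [IsRoot.def, eval_map_algebraMap] at h1
    refine cj_of hy.tower_top ?_
    rw [minpoly.isIntegrallyClosed_eq_field_fractions' ℚ hy, aeval_map_algebraMap, ← hm]
    exact h1
  have hne : ∀ r ∈ (m.map (algebraMap ℤ ℂ)).roots, ‖r‖ ≤ 1 := by
    intro r hr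
    obtain ⟨h1, h2⟩ := h r (hroots r hr)
    have h3 : r = (r.re : ℂ) := Complex.ext rfl (by simp [h1])
    rw [h3, Complex.norm_real]
    exact h2
  have hs := IsAlgClosed.splits (m.map (algebraMap ℤ ℂ))
  have hprod : ((m.coeff 0 : ℤ) : ℂ) =
      (-1) ^ (m.map (algebraMap ℤ ℂ)).natDegree * (m.map (algebraMap ℤ ℂ)).roots.prod := by
    have h1 := hs.coeff_zero_eq_prod_roots_of_monic (hmm.map _)
    rw [coeff_map] at h1
    simpa using h1
  have hmem : ∃ r : ℂ, Cj y r := exists_cj hy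
  have hfin : ∀ x : ℤ, (∃ r : ℂ, Cj y r ∧ r = x) → y = x := by
    rintro x ⟨r, hr, hx⟩
    have h1 := (hr (X - C x)).2 (by rw [map_sub, aeval_X, aeval_C, hx]; simp)
    rw [map_sub, aeval_X, aeval_C, sub_eq_zero] at h1
    simpa using h1
  by_cases h0 : m.coeff 0 = 0
  · left
    rw [h0, Int.cast_zero] at hprod
    have h1 : (m.map (algebraMap ℤ ℂ)).roots.prod = 0 :=
      (mul_eq_zero.1 hprod.symm).resolve_left (pow_ne_zero _ (by norm_num))
    have h2 := Multiset.prod_eq_zero_iff.1 h1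
    have := hfin 0 ⟨0, hroots 0 h2, by simp⟩
    simpa using this
  · right
    have h1 : (1 : ℝ) ≤ ((m.map (algebraMap ℤ ℂ)).roots.map norm).prod := by
      have h2 : ‖((m.coeff 0 : ℤ) : ℂ)‖ = ((m.map (algebraMap ℤ ℂ)).roots.map norm).prod := by
        rw [hprod, norm_mul, norm_pow, norm_neg, NormOneClass.norm_one, one_pow, one_mul]
        exact (map_multiset_prod (normHom : ℂ →*₀ ℝ) _)
      rw [← h2, Complex.norm_intCast]
      have := Int.one_le_abs h0
      exact_mod_cast this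
    have h3 : ∀ s : Multiset ℂ, (∀ r ∈ s, ‖r‖ ≤ 1) → (s.map norm).prod ≤ 1 := by
      intro s
      induction s using Multiset.induction_on with
      | empty => intro _; simp
      | cons a s ih =>
        intro hs'
        rw [Multiset.map_cons, Multiset.prod_cons]
        exact mul_le_one₀ (hs' a (Multiset.mem_cons_self a s))
          (Multiset.prod_nonneg (by
            intro x hx
            obtain ⟨t, -, rfl⟩ := Multiset.mem_map.1 hx
            exact norm_nonneg _))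
          (ih fun r hr => hs' r (Multiset.mem_cons_of_mem hr))
    obtain ⟨r, hr⟩ := hmem
    have hrm : r ∈ (m.map (algebraMap ℤ ℂ)).roots := by
      rw [mem_roots (hmm.map _).ne_zero, IsRoot.def, eval_map_algebraMap]
      exact (hr m).1 (hm ▸ minpoly.aeval _ _)
    obtain ⟨s, hs'⟩ := Multiset.exists_cons_of_mem hrm
    rw [hs', Multiset.map_cons, Multiset.prod_cons] at h1
    have h4 := h3 s fun t ht => hne t (by rw [hs']; exact Multiset.mem_cons_of_mem ht)
    have h5 := hne r hrm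
    have h6 : 0 ≤ (s.map norm).prod := Multiset.prod_nonneg (by
            intro x hx
            obtain ⟨t, -, rfl⟩ := Multiset.mem_map.1 hx
            exact norm_nonneg _)
    have h7 : ‖r‖ = 1 := by
      refine le_antisymm h5 ?_
      calc (1 : ℝ) ≤ ‖r‖ * (s.map norm).prod := h1
        _ ≤ ‖r‖ * 1 := mul_le_mul_of_nonneg_left h4 (norm_nonneg _)
        _ = ‖r‖ := mul_one _
    obtain ⟨h8, -⟩ := h r hr
    have h9 : r = (r.re : ℂ) := Complex.ext rfl (by simp [h8])
    rw [h9, Complex.norm_real, Real.norm_eq_abs] at h7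
    rcases eq_or_eq_neg_of_abs_eq h7 with h10 | h10
    · left
      have := hfin 1 ⟨r, hr, by rw [h9, h10]; simp⟩
      simpa using this
    · right
      have := hfin (-1) ⟨r, hr, by rw [h9, h10]; simp⟩
      simpa using this

end Pool.Agent.H76K
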