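import Pool.Agent.H76K.H

/-!
# Cyclotomic and imaginary quadratic components
-/

set_option autoImplicit false
set_option linter.all false

open Polynomial NumberField NumberField.IsCMField NumberField.Units
open scoped Classical

namespace Pool.Agent.H76K

open Pool.Agent.N874.WG

theorem cyc_small {m : ℕ} (hm : 3 ≤ m) {x : ℝ} (h : ‖aeval (x : ℂ) (cyclotomic m ℤ)‖ = 1) :
    |x| ≤ 1 := by
  have hm0 : m ≠ 0 := by omega
  have key : ∀ t : ℂ, aeval t (cyclotomic m ℤ) = ∏ μ ∈ primitiveRoots m ℂ, (t - μ) := by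
    intro t
    have h1 := cyclotomic_eq_prod_X_sub_primitiveRoots (Complex.isPrimitiveRoot_exp m hm0)
    have h2 : (cyclotomic m ℤ).map (algebraMap ℤ ℂ) = cyclotomic m ℂ := map_cyclotomic _ _
    rw [← eval_map_algebraMap, h2, h1, eval_prod]
    simp
  obtain ⟨s, hs, hxs⟩ : ∃ s : ℤ, (s = 1 ∨ s = -1) ∧ x = s * |x| := by
    rcases le_total 0 x with h0 | h0
    · exact ⟨1, Or.inl rfl, by rw [abs_of_nonneg h0]; simp⟩
    · exact ⟨-1, Or.inr rfl, by rw [abs_of_nonpos h0]; simp⟩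
  have hs2 : (s : ℝ) * s = 1 := by
    rcases hs with rfl | rfl <;> norm_num
  have hne : aeval (s : ℂ) (cyclotomic m ℤ) ≠ 0 := by
    rw [key, Finset.prod_ne_zero_iff]
    intro μ hμ h0
    have h1 : IsPrimitiveRoot μ m := isPrimitiveRoot_of_mem_primitiveRoots hμ
    have hμs : μ = s := (sub_eq_zero.1 h0).symm
    have h2 : μ ^ 2 = 1 := by
      rw [hμs]
      rcases hs with rfl | rfl <;> norm_num
    have h3 := Nat.le_of_dvd (by norm_num) (h1.dvd_of_pow_eq_one 2 h2)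
    omega
  have hge : 1 ≤ ‖aeval (s : ℂ) (cyclotomic m ℤ)‖ := by
    have h1 : aeval (s : ℂ) (cyclotomic m ℤ) = (((cyclotomic m ℤ).eval s : ℤ) : ℂ) := by
      rw [aeval_def, eval₂_eq_eval_map]
      exact eval_intCast_map (algebraMap ℤ ℂ) _ s
    rw [h1] at hne ⊢
    rw [Complex.norm_intCast]
    have h2 : (cyclotomic m ℤ).eval s ≠ 0 := by
      intro h3
      rw [h3, Int.cast_zero] at hne
      exact hne rfl
    exact_mod_cast Int.one_le_abs h2
  have hμ : ∀ μ ∈ primitiveRoots m ℂ, |x| * ‖(s : ℂ) - μ‖ ^ 2 ≤ ‖(x : ℂ) - μ‖ ^ 2 := by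
    intro μ hμ
    have h1 : IsPrimitiveRoot μ m := isPrimitiveRoot_of_mem_primitiveRoots hμ
    have h2 : ‖μ‖ = 1 := Complex.norm_eq_one_of_pow_eq_one h1.pow_eq_one hm0
    have h3 : μ.re * μ.re + μ.im * μ.im = 1 := by
      have := Complex.normSq_eq_norm_sq μ
      rw [h2, Complex.normSq_apply] at this
      linarith
    rw [← Complex.normSq_eq_norm_sq, ← Complex.normSq_eq_norm_sq, Complex.normSq_apply,
      Complex.normSq_apply]
    simp only [Complex.sub_re, Complex.sub_im, Complex.intCast_re, Complex.intCast_im,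
      Complex.ofReal_re, Complex.ofReal_im]
    obtain ⟨r, hr⟩ : ∃ r, r = |x| := ⟨_, rfl⟩
    rw [← hr] at hxs ⊢
    rw [hxs]
    have h4 : (s * r - μ.re) * (s * r - μ.re) + (0 - μ.im) * (0 - μ.im) -
        r * ((s - μ.re) * (s - μ.re) + (0 - μ.im) * (0 - μ.im)) = (r - 1) ^ 2 := by
      linear_combination (r ^ 2 - r) * hs2 + (1 - r) * h3
    nlinarith [sq_nonneg (r - 1)]
  have h1 : |x| ^ (primitiveRoots m ℂ).card ≤ 1 := by
    have h2 : ∏ μ ∈ primitiveRoots m ℂ, (|x| * ‖(s : ℂ) - μ‖ ^ 2) ≤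
        ∏ μ ∈ primitiveRoots m ℂ, ‖(x : ℂ) - μ‖ ^ 2 :=
      Finset.prod_le_prod (fun μ _ => by positivity) hμ
    rw [Finset.prod_mul_distrib, Finset.prod_const, Finset.prod_pow, Finset.prod_pow,
      ← norm_prod, ← norm_prod, ← key, ← key, h] at h2
    have h3 : (1 : ℝ) ≤ ‖aeval (s : ℂ) (cyclotomic m ℤ)‖ ^ 2 := one_le_pow₀ hge
    calc |x| ^ (primitiveRoots m ℂ).card
        ≤ |x| ^ (primitiveRoots m ℂ).card * ‖aeval (s : ℂ) (cyclotomic m ℤ)‖ ^ 2 :=
          le_mul_of_one_le_right (by positivity) h3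
      _ ≤ 1 ^ 2 := h2
      _ = 1 := by norm_num
  have hcard : (primitiveRoots m ℂ).card ≠ 0 := by
    rw [(Complex.isPrimitiveRoot_exp m hm0).card_primitiveRoots]
    exact (Nat.totient_pos.2 (by omega)).ne'
  exact (pow_le_one_iff_of_nonneg (abs_nonneg x) hcard).1 h1

section

variable {p : ℕ} [Fact p.Prime]

/-- all complex conjugates are torsion points -/
def AllTor (f : ℤ[X]) (z : ℤ_[p]) : Prop :=
  IsTor f z ∧ ∀ w : ℂ, Cj z w → CMTor f w

theorem allTor {f : ℤ[X]} (hf : f.Monic) (hd : 0 < f.natDegree) {z : ℤ_[p]} {n : ℕ} (hn : 0 < n)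
    (h : Approx p f z n) : AllTor f z :=
  ⟨isTor_of hn h, fun w hw => tor_cm hn h ((isTor_of hn h).coe.integral hf hd) hw⟩

/-- the value of a composite component: real conjugates and values `± 1` -/
theorem AllTor.real {f : ℤ[X]} (hf : f.Monic) (hd : 0 < f.natDegree) {z : ℤ_[p]}
    (h : AllTor f z) {K : Type} [Field K] [NumberField K] [IsCMField K] {U : ℤ[X]} {θ : 𝓞 K}
    (hθ : cc K θ ≠ θ) (hU : U.Monic) (hUd : 0 < U.natDegree)
    (hdv : (U.map (algebraMap ℤ (𝓞 K)) - C θ) ∣ f.map (algebraMap ℤ (𝓞 K))) :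
    (∀ y : ℂ, Cj (aeval z U) y → y.im = 0) ∧
      ∀ q : ℤ[X], q.Monic → q.comp U ∣ f → aeval z (q.comp U) = 1 ∨ aeval z (q.comp U) = -1 := by
  obtain ⟨w, hw, hcj⟩ := exists_complex hf hd h.1
  have hwi := hw.integral hf hd
  constructor
  · intro y hy
    obtain ⟨w', hw', e⟩ := lift_conj hcj hwi U hy
    rw [← e]
    exact (h.2 w' hw').real hθ hU hUd hdv
  · intro q hq hqf
    obtain ⟨n, hn, h1⟩ := h.1 (q.comp U) (hq.comp hU hUd.ne') hqf
    have h2 : aeval w (q.comp U) ^ n = 1 := hcj.tor h1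
    have h3 := (h.2 w hcj).real hθ hU hUd hdv
    have h4 : aeval w U = (((aeval w U).re : ℝ) : ℂ) := Complex.ext rfl (by simp [h3])
    obtain ⟨x, hx⟩ : ∃ x : ℝ, x = (aeval w U).re := ⟨_, rfl⟩
    rw [← hx] at h4
    have h5 : aeval w (q.comp U) = ((aeval x q : ℝ) : ℂ) := by
      rw [aeval_comp, h4]
      exact (Polynomial.aeval_algebraMap_apply ℂ x q)
    rw [h5] at h2
    have h6 : (aeval x q : ℝ) ^ n = 1 := by exact_mod_cast h2
    rcases (pow_eq_one_iff_of_ne_zero hn.ne').1 h6 with h7 | ⟨h7, -⟩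
    · left
      have h8 := (hcj (q.comp U - 1)).2 (by rw [map_sub, h5, h7, map_one]; simp)
      rwa [map_sub, map_one, sub_eq_zero] at h8
    · right
      have h8 := (hcj (q.comp U + 1)).2 (by rw [map_add, h5, h7, map_one]; simp)
      rw [map_add, map_one] at h8
      exact eq_neg_of_add_eq_zero_left h8

theorem int_small {f : ℤ[X]} (hf : f.Monic) (hd : 0 < f.natDegree) {z : ℤ_[p]}
    (h : AllTor f z) {U : ℤ[X]}
    (hy : ∀ y : ℂ, Cj (aeval z U) y → y.im = 0 ∧ |y.re| ≤ 1) :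
    aeval z U = 0 ∨ aeval z U = 1 ∨ aeval z U = -1 := by
  have h1 : IsIntegral ℤ ((aeval z U : ℤ_[p]) : ℚ_[p]) := by
    rw [coe_aeval]
    exact (IsIntegral.of_mem_of_fg _ ((h.1.coe.integral hf hd).fg_adjoin_singleton) _
        (by rw [Algebra.adjoin_singleton_eq_range_aeval]; exact ⟨_, rfl⟩))
  rcases small_int h1 (fun y' hy' => hy y' (cj_coe.1 hy')) with h2 | h2 | h2
  · left; exact PadicInt.ext (by rw [h2]; simp)
  · right; left; exact PadicInt.ext (by rw [h2]; simp)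
  · right; right; exact PadicInt.ext (by rw [h2]; simp)

theorem exists_cyc {m : ℕ} (hm : 3 ≤ m) : ∃ (K : Type) (_ : Field K) (_ : NumberField K)
    (_ : IsCMField K) (θ : 𝓞 K), IsPrimitiveRoot θ m := by
  haveI : NeZero m := ⟨by omega⟩
  haveI : NeZero ((m : ℕ) : ℚ) := ⟨by exact_mod_cast (NeZero.ne m)⟩
  haveI : IsCyclotomicExtension {m} ℚ (CyclotomicField m ℚ) :=
    CyclotomicField.isCyclotomicExtension m ℚ
  haveI : NumberField (CyclotomicField m ℚ) := IsCyclotomicExtension.numberField {m} ℚ _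
  haveI : IsCMField (CyclotomicField m ℚ) :=
    IsCyclotomicExtension.Rat.isCMField _ (S := {m}) ⟨m, rfl, by omega⟩
  have hζ := IsCyclotomicExtension.zeta_spec m ℚ (CyclotomicField m ℚ)
  exact ⟨CyclotomicField m ℚ, inferInstance, inferInstance, inferInstance, hζ.toInteger,
    hζ.toInteger_isPrimitiveRoot⟩

/-- a component of roots of unity -/
theorem cyc_point {f : ℤ[X]} (hf : f.Monic) (hd : 0 < f.natDegree) {z : ℤ_[p]}
    (h : AllTor f z) {m : ℕ} (hm : 3 ≤ m) {U : ℤ[X]} (hU : U.Monic) (hUd : 0 < U.natDegree)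
    (hdv : (cyclotomic m ℤ).comp U ∣ f) : aeval z U = 0 ∨ aeval z U = 1 ∨ aeval z U = -1 := by
  obtain ⟨K, _, _, _, θ, hθp⟩ := exists_cyc hm
  have hroot : aeval θ (cyclotomic m ℤ) = 0 := by
    have h1 := hθp.isRoot_cyclotomic (by omega)
    rw [IsRoot.def, ← map_cyclotomic_int, eval_map] at h1
    rw [aeval_def]
    exact h1
  have hθ : cc K θ ≠ θ := by
    intro h1
    obtain ⟨τ⟩ : Nonempty (K →+* ℂ) := inferInstance
    have h2 : (starRingEnd ℂ) (τ (θ : K)) = τ (θ : K) := by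
      rw [← complexEmbedding_complexConj K τ, ← cc_coe, h1]
    have h3 : (τ (θ : K)) ^ m = 1 := by
      rw [← map_pow]
      have : ((θ ^ m : 𝓞 K) : K) = 1 := by rw [hθp.pow_eq_one]; rfl
      rw [← map_one τ, ← this]
      rfl
    have h4 : ‖τ (θ : K)‖ = 1 := Complex.norm_eq_one_of_pow_eq_one h3 (by omega)
    have h5 : (τ (θ : K)) ^ 2 = 1 := by
      have h6 := Complex.mul_conj (τ (θ : K))
      rw [h2, Complex.normSq_eq_norm_sq, h4] at h6
      rw [sq, h6]
      norm_num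
    have h6 : θ ^ 2 = 1 := by
      apply RingOfIntegers.ext
      apply τ.injective
      refine Eq.trans (map_pow τ (θ : K) 2) (h5.trans (map_one τ).symm)
    have h7 := Nat.le_of_dvd (by norm_num) (hθp.dvd_of_pow_eq_one 2 h6)
    omega
  have hdv' := dvd_comp' hroot hdv
  refine int_small hf hd h fun y hy => ?_
  have hre := (h.real hf hd hθ hU hUd hdv').1 y hy
  refine ⟨hre, cyc_small hm ?_⟩
  have h1 : y = (y.re : ℂ) := Complex.ext rfl (by simp [hre])
  rw [← h1]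
  obtain ⟨n, hn, h2⟩ := h.1 ((cyclotomic m ℤ).comp U)
    ((cyclotomic.monic m ℤ).comp hU hUd.ne') hdv
  rw [aeval_comp] at h2
  exact norm_one hn (hy.tor h2)

end

end Pool.Agent.H76K
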