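import Pool.Agent.H76K.I

/-!
# Imaginary quadratic components, and good primes
-/

set_option autoImplicit false
set_option linter.all false

open Polynomial NumberField NumberField.IsCMField NumberField.Units
open scoped Classical IntermediateField

namespace Pool.Agent.H76K

open Pool.Agent.N874.WG

theorem exists_quad {b c : ℤ} (h : b ^ 2 < 4 * c) : ∃ (K : Type) (_ : Field K)
    (_ : NumberField K) (_ : IsCMField K) (θ : 𝓞 K),
    aeval θ (X ^ 2 + C b * X + C c : ℤ[X]) = 0 ∧ cc K θ ≠ θ := by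
  have hreal : ∀ x : ℝ, x ^ 2 + b * x + c ≠ 0 := by
    intro x h0
    have h1 : ((b : ℝ)) ^ 2 < 4 * c := by exact_mod_cast h
    nlinarith [sq_nonneg (2 * x + b)]
  have hreal' : ∀ β : ℂ, β ^ 2 + b * β + c = 0 → (starRingEnd ℂ) β ≠ β := by
    intro β hβ h1
    obtain ⟨x, rfl⟩ := Complex.conj_eq_iff_real.1 h1
    exact hreal x (by exact_mod_cast hβ)
  have hmon : (X ^ 2 + C b * X + C c : ℤ[X]).Monic := by monicity!
  have hdeg : (X ^ 2 + C b * X + C c : ℤ[X]).natDegree = 2 := by compute_degree!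
  have hae : ∀ {A : Type} [CommRing A] (t : A), aeval t (X ^ 2 + C b * X + C c : ℤ[X]) =
      t ^ 2 + b * t + c := by
    intro A _ t
    simp
  obtain ⟨α, hα⟩ : ∃ α : ℂ, α ^ 2 + b * α + c = 0 := by
    obtain ⟨α, hα⟩ := IsAlgClosed.exists_aeval_eq_zero_of_injective ℂ
      (algebraMap ℤ ℂ).injective_int (X ^ 2 + C b * X + C c : ℤ[X]) (by
        rw [degree_eq_natDegree hmon.ne_zero, hdeg]
        norm_num)
    exact ⟨α, by rw [← hae]; exact hα⟩
  have hαi : IsIntegral ℤ α := ⟨_, hmon, by rw [← aeval_def, hae]; exact hα⟩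
  have hαq : IsIntegral ℚ α := hαi.tower_top
  haveI : FiniteDimensional ℚ ℚ⟮α⟯ := IntermediateField.adjoin.finiteDimensional hαq
  haveI : NumberField ℚ⟮α⟯ := ⟨⟩
  have hmin : (minpoly ℚ α).natDegree = 2 := by
    have h1 : (minpoly ℚ α).natDegree ≤ 2 := by
      have h2 : minpoly ℚ α ∣ (X ^ 2 + C b * X + C c : ℤ[X]).map (algebraMap ℤ ℚ) := by
        apply minpoly.dvd
        rw [aeval_map_algebraMap, hae]
        exact hα
      have h3 := natDegree_le_of_dvd h2 (hmon.map _).ne_zero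
      rwa [hmon.natDegree_map, hdeg] at h3
    have h2 : 0 < (minpoly ℚ α).natDegree := minpoly.natDegree_pos hαq
    have h3 : (minpoly ℚ α).natDegree ≠ 1 := by
      intro h4
      obtain ⟨q, hq⟩ := minpoly.natDegree_eq_one_iff.1 h4
      refine hreal' α hα ?_
      rw [← hq]
      simp
    omega
  have hfr : Module.finrank ℚ ℚ⟮α⟯ = 2 := by
    rw [IntermediateField.adjoin.finrank hαq, hmin]
  haveI : Algebra.IsQuadraticExtension ℚ ℚ⟮α⟯ := ⟨hfr⟩
  let g : ℚ⟮α⟯ := IntermediateField.AdjoinSimple.gen ℚ α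
  have hg : g ^ 2 + b * g + c = 0 := by
    apply (algebraMap ℚ⟮α⟯ ℂ).injective
    rw [map_add, map_add, map_mul, map_pow, map_intCast, map_intCast, map_zero]
    exact hα
  have hφ : ∀ φ : ℚ⟮α⟯ →+* ℂ, (starRingEnd ℂ) (φ g) ≠ φ g := by
    intro φ
    apply hreal'
    have h1 := congrArg φ hg
    rw [map_add, map_add, map_mul, map_pow, map_intCast, map_intCast, map_zero] at h1
    exact h1
  haveI : IsTotallyComplex ℚ⟮α⟯ := ⟨fun v => by
    rw [InfinitePlace.isComplex_iff]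
    intro hr
    exact hφ v.embedding (RingHom.congr_fun hr g)⟩
  haveI : IsCMField ℚ⟮α⟯ := IsCMField.ofCMExtension ℚ ℚ⟮α⟯
  have hgi : IsIntegral ℤ g := ⟨_, hmon, by rw [← aeval_def, hae]; exact hg⟩
  obtain ⟨θ, hθ⟩ : ∃ x : 𝓞 ℚ⟮α⟯, (x : ℚ⟮α⟯) = g := ⟨⟨g, hgi⟩, rfl⟩
  refine ⟨ℚ⟮α⟯, inferInstance, inferInstance, inferInstance, θ, ?_, ?_⟩
  · rw [hae]
    apply (FaithfulSMul.algebraMap_injective (𝓞 ℚ⟮α⟯) ℚ⟮α⟯)
    have e : algebraMap (𝓞 ℚ⟮α⟯) ℚ⟮α⟯ θ = g := hθ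
    rw [map_add, map_add, map_mul, map_pow, map_intCast, map_intCast, map_zero, e]
    exact hg
  · intro h1
    obtain ⟨τ⟩ : Nonempty (ℚ⟮α⟯ →+* ℂ) := inferInstance
    apply hφ τ
    rw [← complexEmbedding_complexConj _ τ, ← hθ]
    congr 1
    exact congrArg (fun t : 𝓞 ℚ⟮α⟯ => (t : ℚ⟮α⟯)) h1

section

variable {p : ℕ} [Fact p.Prime]

theorem quad_real {b c : ℤ} (h : b ^ 2 < 4 * c) {y : ℝ} (hy : y ^ 2 + b * y + c = 1) :
    ∃ m : ℤ, y = m ∧ m ^ 2 + b * m + c = 1 := by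
  have h1 : (2 * y + b) ^ 2 = ((b ^ 2 - 4 * c + 4 : ℤ) : ℝ) := by
    push_cast
    linear_combination 4 * hy
  have h2 : 0 ≤ b ^ 2 - 4 * c + 4 := by
    have : (0 : ℝ) ≤ ((b ^ 2 - 4 * c + 4 : ℤ) : ℝ) := by rw [← h1]; positivity
    exact_mod_cast this
  have key : ∃ m : ℤ, y = m := by
    rcases Int.even_or_odd' b with ⟨k, hk | hk⟩
    · have h3 : b ^ 2 - 4 * c + 4 = 0 := by
        rw [hk] at h h2 ⊢
        have : (2 * k) ^ 2 = 4 * k ^ 2 := by ring
        rw [this] at h h2 ⊢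
        omega
      rw [h3, Int.cast_zero] at h1
      have h4 := pow_eq_zero_iff (two_ne_zero) |>.1 h1
      refine ⟨-k, ?_⟩
      rw [hk] at h4
      push_cast at h4 ⊢
      linarith
    · have h3 : b ^ 2 - 4 * c + 4 = 1 := by
        rw [hk] at h h2 ⊢
        have : (2 * k + 1) ^ 2 = 4 * (k ^ 2 + k) + 1 := by ring
        rw [this] at h h2 ⊢
        omega
      rw [h3, Int.cast_one, sq, mul_self_eq_one_iff] at h1
      rcases h1 with h4 | h4
      · refine ⟨-k, ?_⟩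
        rw [hk] at h4
        push_cast at h4 ⊢
        linarith
      · refine ⟨-k - 1, ?_⟩
        rw [hk] at h4
        push_cast at h4 ⊢
        linarith
  obtain ⟨m, rfl⟩ := key
  exact ⟨m, rfl, by exact_mod_cast hy⟩

/-- an imaginary quadratic component -/
theorem quad_point {f : ℤ[X]} (hf : f.Monic) (hd : 0 < f.natDegree) {z : ℤ_[p]}
    (h : AllTor f z) {b c : ℤ} (hbc : b ^ 2 < 4 * c) {U : ℤ[X]} (hU : U.Monic)
    (hUd : 0 < U.natDegree) (hdv : (X ^ 2 + C b * X + C c : ℤ[X]).comp U ∣ f) :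
    ∃ m : ℤ, aeval z U = m ∧ m ^ 2 + b * m + c = 1 := by
  obtain ⟨K, _, _, _, θ, hroot, hθ⟩ := exists_quad hbc
  have hdv' := dvd_comp' hroot hdv
  obtain ⟨h1, h2⟩ := h.real hf hd hθ hU hUd hdv'
  have hmon : (X ^ 2 + C b * X + C c : ℤ[X]).Monic := by monicity!
  have h3 := h2 _ hmon hdv
  obtain ⟨w, hw, hcj⟩ := exists_complex hf hd h.1
  have hy := hcj.aeval U
  have hre := h1 _ hy
  obtain ⟨y, hyy⟩ : ∃ y : ℝ, y = (aeval w U).re := ⟨_, rfl⟩
  have h4 : aeval w U = (y : ℂ) := by rw [hyy]; exact Complex.ext rfl (by simp [hre])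
  have hpos : 0 < y ^ 2 + b * y + c := by
    have h1 : ((b : ℝ)) ^ 2 < 4 * c := by exact_mod_cast hbc
    nlinarith [sq_nonneg (2 * y + b)]
  have hval : aeval w ((X ^ 2 + C b * X + C c : ℤ[X]).comp U) = ((y ^ 2 + b * y + c : ℝ) : ℂ) := by
    rw [aeval_comp, h4]
    simp
  have hone : y ^ 2 + b * y + c = 1 := by
    rcases h3 with h5 | h5
    · have h6 := (hcj ((X ^ 2 + C b * X + C c : ℤ[X]).comp U - 1)).1 (by
        rw [map_sub, h5, map_one, sub_self])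
      rw [map_sub, map_one, hval, sub_eq_zero] at h6
      exact_mod_cast h6
    · have h6 := (hcj ((X ^ 2 + C b * X + C c : ℤ[X]).comp U + 1)).1 (by
        rw [map_add, h5, map_one, neg_add_cancel])
      rw [map_add, map_one, hval] at h6
      have h7 : y ^ 2 + b * y + c + 1 = 0 := by exact_mod_cast h6
      linarith
  obtain ⟨m, hm, hm1⟩ := quad_real hbc hone
  refine ⟨m, ?_, hm1⟩
  exact cj_int hy (by rw [h4, hm]; simp)

/-- good primes -/
theorem AllTor.pm {f : ℤ[X]} (hf : f.Monic) (hd : 0 < f.natDegree) {z : ℤ_[p]}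
    (h : AllTor f z) {D : ℕ} (hfin : {w : ℂ | IsTor f w ∧ CMTor f w}.Finite)
    (hD : {w : ℂ | IsTor f w ∧ CMTor f w}.ncard ≤ D) (h4 : p % 4 = 3)
    (hq : ∀ q : ℕ, q.Prime → q ≠ 2 → q ≤ D + 1 → ¬ q ∣ p - 1) {g : ℤ[X]} (hg : g.Monic)
    (hgf : g ∣ f) : aeval z g = 1 ∨ aeval z g = -1 := by
  obtain ⟨w, hw, hcj⟩ := exists_complex hf hd h.1
  have hwi := hw.integral hf hd
  have hR0 : minpoly ℤ w ≠ 0 := minpoly.ne_zero hwi
  have hmap : (minpoly ℤ w).map (algebraMap ℤ ℂ) = (minpoly ℚ w).map (algebraMap ℚ ℂ) := by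
    rw [minpoly.isIntegrallyClosed_eq_field_fractions' ℚ hwi, Polynomial.map_map]
    congr 1
  have hsep : ((minpoly ℤ w).map (algebraMap ℤ ℂ)).Separable := by
    rw [hmap]
    exact (minpoly.irreducible hwi.tower_top).separable.map
  have hdeg : (minpoly ℤ w).natDegree ≤ D := by
    have h1 : ((minpoly ℤ w).map (algebraMap ℤ ℂ)).natDegree = (minpoly ℤ w).natDegree :=
      (minpoly.monic hwi).natDegree_map _
    rw [← h1, (IsAlgClosed.splits _).natDegree_eq_card_roots,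
      ← Multiset.toFinset_card_of_nodup (nodup_roots hsep), ← Set.ncard_coe_finset]
    refine (Set.ncard_le_ncard ?_ hfin).trans hD
    intro r hr
    rw [Finset.mem_coe, Multiset.mem_toFinset] at hr
    have h2 := isRoot_of_mem_roots hr
    rw [hmap, IsRoot.def, eval_map_algebraMap] at h2
    have h3 : Cj w r := cj_of hwi.tower_top h2
    exact ⟨h3.isTor hw, h.2 r (hcj.trans h3)⟩
  exact Pool.Agent.H76K.pm h.1 hR0 ((hcj _).2 (minpoly.aeval _ _)) hdeg h4 hq hg hgf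

end

/-- infinitely many primes -/
theorem cm_exists_prime {f : ℤ[X]} (hf : f.Monic) (hd : 0 < f.natDegree)
    (hfin : {w : ℂ | IsTor f w ∧ CMTor f w}.Finite)
    (hreal : ∀ x : ℝ, (∀ g : ℤ[X], g.Monic → g ∣ f → aeval x g = 1 ∨ aeval x g = -1) →
      ∃ m : ℤ, x = m) (B : ℕ) :
    ∃ (p : ℕ) (_ : Fact p.Prime), B < p ∧ ∀ z : ℤ_[p], AllTor f z → ∃ m : ℤ, z = m := by
  obtain ⟨R, hR⟩ : ∃ R : ℤ[X], R = ∏ w ∈ hfin.toFinset, minpoly ℤ w := ⟨_, rfl⟩
  have hR0 : R ≠ 0 := by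
    rw [hR, Finset.prod_ne_zero_iff]
    intro w hw
    rw [Set.Finite.mem_toFinset] at hw
    exact minpoly.ne_zero (hw.1.integral hf hd)
  obtain ⟨p, ip, hpB, hp⟩ := exists_prime hf hd hR0 hreal B
  refine ⟨p, ip, hpB, fun z hz => hp z hz.1 ?_⟩
  obtain ⟨w, hw, hcj⟩ := exists_complex hf hd hz.1
  refine (hcj R).2 ?_
  rw [hR, map_prod]
  exact Finset.prod_eq_zero (hfin.mem_toFinset.2 ⟨hw, hz.2 w hcj⟩) (minpoly.aeval _ _)

end Pool.Agent.H76K
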