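import Pool.Agent.H76K.J

/-!
# Root fields which contain a CM field
-/

set_option autoImplicit false
set_option linter.all false

open Polynomial NumberField NumberField.IsCMField NumberField.Units
open scoped Classical IntermediateField

namespace Pool.Agent.H76K

open Pool.Agent.N874.WG

section

variable {K L : Type} [Field K] [NumberField K] [IsCMField K] [Field L] [NumberField L]
  [Algebra K L]

theorem minpoly_conj_ne {θ : L} (hθ : ℚ⟮θ⟯ = ⊤) :
    (minpoly K θ).map ((complexConj K : K →+* K)) ≠ minpoly K θ := by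
  intro h
  haveI : FiniteDimensional K L := Module.Finite.of_restrictScalars_finite ℚ K L
  let K' := maximalRealSubfield K
  haveI : IsScalarTower K' K L := inferInstance
  haveI : FiniteDimensional K' L := Module.Finite.of_restrictScalars_finite ℚ K' L
  have hθi : IsIntegral K θ := Algebra.IsIntegral.isIntegral θ
  -- the coefficients are real
  have hlift : minpoly K θ ∈ Polynomial.lifts (algebraMap K' K) := by
    rw [Polynomial.lifts_iff_coeff_lifts]
    intro n
    have h1 : complexConj K ((minpoly K θ).coeff n) = (minpoly K θ).coeff n := by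
      conv_rhs => rw [← h]
      rw [coeff_map]
      rfl
    rw [complexConj_eq_self_iff] at h1
    exact ⟨⟨_, h1⟩, rfl⟩
  obtain ⟨Q, hQ⟩ := hlift
  have hQ' : Q.map (algebraMap K' K) = minpoly K θ := hQ
  have hQd : Q.natDegree = (minpoly K θ).natDegree := by
    rw [← hQ', natDegree_map]
  have hQ0 : Q ≠ 0 := by
    rintro rfl
    rw [Polynomial.map_zero] at hQ'
    exact minpoly.ne_zero hθi hQ'.symm
  have hroot : aeval θ Q = 0 := by
    rw [← aeval_map_algebraMap K, hQ', minpoly.aeval]
  have htop : K'⟮θ⟯ = ⊤ := by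
    rw [eq_top_iff]
    intro x _
    have h1 : x ∈ ℚ⟮θ⟯ := by rw [hθ]; trivial
    have h2 : ℚ⟮θ⟯ ≤ (K'⟮θ⟯).restrictScalars ℚ := by
      rw [IntermediateField.adjoin_simple_le_iff]
      exact IntermediateField.mem_adjoin_simple_self K' θ
    exact h2 h1
  have h1 : Module.finrank K' L = (minpoly K' θ).natDegree := by
    rw [← IntermediateField.adjoin.finrank (Algebra.IsIntegral.isIntegral θ : IsIntegral K' θ),
      htop, IntermediateField.finrank_top']
  have h2 : (minpoly K' θ).natDegree ≤ Q.natDegree := by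
    exact natDegree_le_of_dvd (minpoly.dvd K' θ hroot) hQ0
  have h3 : Module.finrank K' K * Module.finrank K L = Module.finrank K' L :=
    Module.finrank_mul_finrank K' K L
  have h4 : Module.finrank K' K = 2 := Algebra.IsQuadraticExtension.finrank_eq_two K' K
  have h5 : (minpoly K θ).natDegree ≤ Module.finrank K L := minpoly.natDegree_le θ
  have h6 : 0 < Module.finrank K L := Module.finrank_pos
  rw [h4] at h3
  omega

/-- the minimal polynomial over the integers of `K` -/
theorem field_data {θ : 𝓞 L} (hθ : ℚ⟮(θ : L)⟯ = ⊤) {f : ℤ[X]} (h0 : aeval θ f = 0) :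
    ∃ (g : ℤ[X]) (P : (𝓞 K)[X]), g.Monic ∧ g ∣ f ∧ P.Monic ∧ 0 < P.natDegree ∧
      P ∣ g.map (algebraMap ℤ (𝓞 K)) ∧
      IsCoprime (P.map (algebraMap (𝓞 K) K)) ((P.map (cc K)).map (algebraMap (𝓞 K) K)) ∧
      g.natDegree = Module.finrank ℚ L ∧ P.natDegree = Module.finrank K L := by
  haveI : FiniteDimensional K L := Module.Finite.of_restrictScalars_finite ℚ K L
  have hi : IsIntegral ℤ (θ : L) := θ.2
  have hi' : IsIntegral (𝓞 K) (θ : L) := hi.tower_top
  have hq : (minpoly ℤ (θ : L)).map (algebraMap ℤ ℚ) = minpoly ℚ (θ : L) :=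
    (minpoly.isIntegrallyClosed_eq_field_fractions' ℚ hi).symm
  have hk : (minpoly (𝓞 K) (θ : L)).map (algebraMap (𝓞 K) K) = minpoly K (θ : L) :=
    (minpoly.isIntegrallyClosed_eq_field_fractions' K hi').symm
  have h0' : aeval (θ : L) f = 0 := by
    have := Polynomial.aeval_algebraMap_apply L θ f
    rw [h0, map_zero] at this
    exact this
  refine ⟨minpoly ℤ (θ : L), minpoly (𝓞 K) (θ : L), minpoly.monic hi,
    minpoly.isIntegrallyClosed_dvd hi h0', minpoly.monic hi', minpoly.natDegree_pos hi', ?_, ?_,
    ?_, ?_⟩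
  · apply minpoly.isIntegrallyClosed_dvd hi'
    rw [aeval_map_algebraMap, minpoly.aeval]
  · have hcc : ((minpoly (𝓞 K) (θ : L)).map (cc K)).map (algebraMap (𝓞 K) K) =
        (minpoly K (θ : L)).map ((complexConj K : K →+* K)) := by
      rw [← hk, Polynomial.map_map, Polynomial.map_map]
      rfl
    rw [hcc, hk]
    have hirr : Irreducible (minpoly K (θ : L)) := minpoly.irreducible hi'.tower_top
    rw [hirr.coprime_iff_not_dvd]
    intro hdv
    apply minpoly_conj_ne (K := K) hθ
    have hm : (minpoly K (θ : L)).Monic := minpoly.monic hi'.tower_top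
    exact (Polynomial.eq_of_monic_of_dvd_of_natDegree_le hm (hm.map _) hdv
      (by rw [hm.natDegree_map]))
  · rw [← (minpoly.monic hi).natDegree_map (algebraMap ℤ ℚ), hq,
      ← IntermediateField.adjoin.finrank hi.tower_top, hθ, IntermediateField.finrank_top']
  · have htop : K⟮(θ : L)⟯ = ⊤ := by
      rw [eq_top_iff]
      intro x _
      have h1 : x ∈ ℚ⟮(θ : L)⟯ := by rw [hθ]; trivial
      have h2 : ℚ⟮(θ : L)⟯ ≤ (K⟮(θ : L)⟯).restrictScalars ℚ := by
        rw [IntermediateField.adjoin_simple_le_iff]
        exact IntermediateField.mem_adjoin_simple_self K (θ : L)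
      exact h2 h1
    rw [← (minpoly.monic hi').natDegree_map (algebraMap (𝓞 K) K), hk,
      ← IntermediateField.adjoin.finrank hi'.tower_top, htop, IntermediateField.finrank_top']

end

end Pool.Agent.H76K
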