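import Pool.Agent.H76K.K

/-!
# Components given by norm forms of imaginary quadratic fields
-/

set_option autoImplicit false
set_option linter.all false

open Polynomial NumberField NumberField.IsCMField NumberField.Units
open scoped Classical IntermediateField

namespace Pool.Agent.H76K

open Pool.Agent.N874.WG

/-- an algebraic integer all of whose conjugates are smaller than one is zero -/
theorem zero_of_small {K : Type} [Field K] [CharZero K] {y : K} (hy : IsIntegral ℤ y)
    (h : ∀ y' : ℂ, Cj y y' → ‖y'‖ < 1) : y = 0 := by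
  obtain ⟨m, hm⟩ : ∃ m, m = minpoly ℤ y := ⟨_, rfl⟩
  have hmm : m.Monic := hm ▸ minpoly.monic hy
  have hroots : ∀ r ∈ (m.map (algebraMap ℤ ℂ)).roots, Cj y r := by
    intro r hr
    have h1 := isRoot_of_mem_roots hr
    rw [IsRoot.def, eval_map_algebraMap] at h1
    refine cj_of hy.tower_top ?_
    rw [minpoly.isIntegrallyClosed_eq_field_fractions' ℚ hy, aeval_map_algebraMap, ← hm]
    exact h1
  have hs := IsAlgClosed.splits (m.map (algebraMap ℤ ℂ))
  have hprod : ((m.coeff 0 : ℤ) : ℂ) =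
      (-1) ^ (m.map (algebraMap ℤ ℂ)).natDegree * (m.map (algebraMap ℤ ℂ)).roots.prod := by
    have h1 := hs.coeff_zero_eq_prod_roots_of_monic (hmm.map _)
    rw [coeff_map] at h1
    simpa using h1
  by_cases h0 : m.coeff 0 = 0
  · rw [h0, Int.cast_zero] at hprod
    have h1 : (m.map (algebraMap ℤ ℂ)).roots.prod = 0 :=
      (mul_eq_zero.1 hprod.symm).resolve_left (pow_ne_zero _ (by norm_num))
    have h2 := Multiset.prod_eq_zero_iff.1 h1
    have h3 := (hroots 0 h2 X).2 (by simp)
    simpa using h3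
  · exfalso
    have h1 : (1 : ℝ) ≤ ((m.map (algebraMap ℤ ℂ)).roots.map norm).prod := by
      have h2 : ‖((m.coeff 0 : ℤ) : ℂ)‖ = ((m.map (algebraMap ℤ ℂ)).roots.map norm).prod := by
        rw [hprod, norm_mul, norm_pow, norm_neg, NormOneClass.norm_one, one_pow, one_mul]
        exact (map_multiset_prod (normHom : ℂ →*₀ ℝ) _)
      rw [← h2, Complex.norm_intCast]
      have := Int.one_le_abs h0
      exact_mod_cast this
    have h3 : ∀ s : Multiset ℂ, (∀ r ∈ s, ‖r‖ ≤ 1) → (s.map norm).prod ≤ 1 := by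
      intro s
      induction s using Multiset.induction_on with
      | empty => intro _; simp
      | cons a s ih =>
        intro hs'
        rw [Multiset.map_cons, Multiset.prod_cons]
        exact mul_le_one₀ (hs' a (Multiset.mem_cons_self a s))
          (Multiset.prod_nonneg (by
            intro x hx
            obtain ⟨t, -, rfl⟩ := Multiset.mem_map.1 hx
            exact norm_nonneg _))
          (ih fun r hr => hs' r (Multiset.mem_cons_of_mem hr))
    obtain ⟨r, hr⟩ := exists_cj hy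
    have hrm : r ∈ (m.map (algebraMap ℤ ℂ)).roots := by
      rw [mem_roots (hmm.map _).ne_zero, IsRoot.def, eval_map_algebraMap]
      exact (hr m).1 (hm ▸ minpoly.aeval _ _)
    obtain ⟨s, hs'⟩ := Multiset.exists_cons_of_mem hrm
    rw [hs', Multiset.map_cons, Multiset.prod_cons] at h1
    have h4 := h3 s fun t ht => (h t (hroots t (by
      rw [hs']; exact Multiset.mem_cons_of_mem ht))).le
    have h5 := h r hr
    have h6 : ‖r‖ * (s.map norm).prod ≤ ‖r‖ * 1 := mul_le_mul_of_nonneg_left h4 (norm_nonneg _)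
    linarith

/-- the norm form -/
noncomputable def nf (b c : ℤ) (A B : ℤ[X]) : ℤ[X] := A ^ 2 + C b * A * B + C c * B ^ 2

theorem nf_monic {b c : ℤ} {A B : ℤ[X]} (hA : A.Monic) (hB : B.degree < A.degree) :
    (nf b c A B).Monic := by
  have h1 : nf b c A B = A ^ 2 + (C b * A * B + C c * B ^ 2) := by unfold nf; ring
  rw [h1]
  by_cases hB0 : B = 0
  · rw [hB0]
    simpa using hA.pow 2
  have hA0 : A ≠ 0 := hA.ne_zero
  refine (hA.pow 2).add_of_left ((degree_add_le _ _).trans_lt (max_lt ?_ ?_))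
  · have h2 : (C b * A * B).degree ≤ A.degree + B.degree := by
      rw [mul_assoc]
      refine (degree_mul_le _ _).trans ?_
      calc (C b).degree + (A * B).degree ≤ 0 + (A * B).degree :=
            add_le_add_left degree_C_le _
        _ = (A * B).degree := zero_add _
        _ ≤ _ := degree_mul_le _ _
    refine h2.trans_lt ?_
    rw [degree_pow, degree_eq_natDegree hA0, degree_eq_natDegree hB0]
    rw [degree_eq_natDegree hA0, degree_eq_natDegree hB0] at hB
    have h3 : B.natDegree < A.natDegree := by exact_mod_cast hB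
    rw [nsmul_eq_mul]
    norm_cast
    omega
  · have h2 : (C c * B ^ 2).degree ≤ (B ^ 2).degree := by
      refine (degree_mul_le _ _).trans ?_
      calc (C c).degree + (B ^ 2).degree ≤ 0 + (B ^ 2).degree :=
            add_le_add_left degree_C_le _
        _ = (B ^ 2).degree := zero_add _
    refine h2.trans_lt ?_
    rw [degree_pow, degree_pow, degree_eq_natDegree hA0, degree_eq_natDegree hB0]
    rw [degree_eq_natDegree hA0, degree_eq_natDegree hB0] at hB
    have h3 : B.natDegree < A.natDegree := by exact_mod_cast hB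
    rw [nsmul_eq_mul, nsmul_eq_mul]
    norm_cast
    omega

theorem nf_aeval {A' : Type} [CommRing A'] {b c : ℤ} {A B : ℤ[X]} (w : A') :
    aeval w (nf b c A B) = aeval w A ^ 2 + b * aeval w A * aeval w B + c * aeval w B ^ 2 := by
  unfold nf
  simp

theorem small_B {f : ℤ[X]} {b c : ℤ} (hbc : b ^ 2 + 4 < 4 * c) {A B : ℤ[X]} (hA : A.Monic)
    (hB : B.degree < A.degree) (hdv : nf b c A B ∣ f) {w : ℂ} (hw : IsTor f w)
    (h : CMTor f w) : ‖aeval w B‖ < 1 := by
  obtain ⟨K, _, _, _, θ, hroot, hθ⟩ := exists_quad (b := b) (c := c) (by linarith)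
  obtain ⟨τ⟩ : Nonempty (K →+* ℂ) := inferInstance
  obtain ⟨P, hP⟩ : ∃ P : (𝓞 K)[X], P = A.map (algebraMap ℤ (𝓞 K)) -
    C θ * B.map (algebraMap ℤ (𝓞 K)) := ⟨_, rfl⟩
  have hθ2 : θ ^ 2 + b * θ + c = 0 := by
    have := hroot
    simpa using this
  have hPm : P.Monic := by
    rw [hP]
    refine (hA.map _).sub_of_left ?_
    rw [hA.degree_map]
    refine lt_of_le_of_lt ?_ hB
    refine (degree_mul_le _ _).trans ?_
    calc (C θ).degree + (B.map (algebraMap ℤ (𝓞 K))).degree
        ≤ 0 + (B.map (algebraMap ℤ (𝓞 K))).degree := add_le_add_left degree_C_le _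
      _ = (B.map (algebraMap ℤ (𝓞 K))).degree := zero_add _
      _ ≤ B.degree := degree_map_le
  have hPf : P ∣ f.map (algebraMap ℤ (𝓞 K)) := by
    refine Dvd.dvd.trans ?_ (Polynomial.map_dvd _ hdv)
    refine ⟨A.map (algebraMap ℤ (𝓞 K)) + C (b + θ) * B.map (algebraMap ℤ (𝓞 K)), ?_⟩
    rw [hP]
    unfold nf
    rw [Polynomial.map_add, Polynomial.map_add, Polynomial.map_mul, Polynomial.map_mul,
      Polynomial.map_mul, Polynomial.map_pow, Polynomial.map_pow, map_C, map_C]
    have e1 : (algebraMap ℤ (𝓞 K)) b = (b : 𝓞 K) := rfl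
    have e2 : (algebraMap ℤ (𝓞 K)) c = (c : 𝓞 K) := rfl
    have e3 : C (θ ^ 2 + b * θ + c) = (0 : (𝓞 K)[X]) := by rw [hθ2, C_0]
    rw [e1, e2]
    rw [C_add, C_add, C_pow, C_mul] at e3
    rw [C_add]
    linear_combination (B.map (algebraMap ℤ (𝓞 K))) ^ 2 * e3
  have hnorm := h.norm τ hPm hPf
  obtain ⟨t, ht⟩ : ∃ t, t = τ (θ : K) := ⟨_, rfl⟩
  have hval : ∀ Q : ℤ[X], (Q.map (algebraMap ℤ (𝓞 K))).eval₂ (τ.comp (algebraMap (𝓞 K) K)) w =
      aeval w Q := by
    intro Q
    rw [eval₂_map, aeval_def]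
    congr 1
    exact RingHom.ext_int _ _
  have hmc : ∀ Q : ℤ[X], ((Q.map (algebraMap ℤ (𝓞 K))).map (cc K)) =
      Q.map (algebraMap ℤ (𝓞 K)) := by
    intro Q
    rw [Polynomial.map_map]
    congr 1
    exact RingHom.ext_int _ _
  have e1 : ev τ P w = aeval w A - t * aeval w B := by
    unfold ev
    rw [hP, eval₂_sub, eval₂_mul, eval₂_C, hval, hval, ht]
    rfl
  have e2 : ev τ (P.map (cc K)) w = aeval w A - (starRingEnd ℂ) t * aeval w B := by
    unfold ev
    rw [hP, Polynomial.map_sub, Polynomial.map_mul, map_C, hmc, hmc, eval₂_sub, eval₂_mul,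
      eval₂_C, hval, hval, ht]
    congr 2
    exact complexEmbedding_complexConj K τ (θ : K)
  rw [e1, e2] at hnorm
  have ht2 : t ^ 2 + b * t + c = 0 := by
    have h1 := congrArg (τ.comp (algebraMap (𝓞 K) K)) hθ2
    rw [map_add, map_add, map_mul, map_pow, map_intCast, map_intCast, map_zero] at h1
    rw [ht]
    exact h1
  have hbc' : ((b : ℝ)) ^ 2 + 4 < 4 * c := by exact_mod_cast hbc
  -- real and imaginary parts of `t`
  have hre := congrArg Complex.re ht2
  have him := congrArg Complex.im ht2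
  simp only [sq, Complex.add_re, Complex.mul_re, Complex.add_im, Complex.mul_im,
    Complex.intCast_re, Complex.intCast_im, Complex.zero_re, Complex.zero_im] at hre him
  obtain ⟨x, hx⟩ : ∃ x, x = t.re := ⟨_, rfl⟩
  obtain ⟨y, hy⟩ : ∃ y, y = t.im := ⟨_, rfl⟩
  rw [← hx, ← hy] at hre him
  have hy0 : y ≠ 0 := by
    intro h0
    rw [h0] at hre
    nlinarith [sq_nonneg (2 * x + b)]
  have hx2 : 2 * x = -b := by
    have h1 : y * (2 * x + b) = 0 := by linarith
    have := (mul_eq_zero.1 h1).resolve_left hy0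
    linarith
  have hy2 : 4 * y ^ 2 = 4 * c - b ^ 2 := by
    have h1 : (2 * x) ^ 2 = b ^ 2 := by rw [hx2]; ring
    nlinarith
  have htb : t + (starRingEnd ℂ) t = -b := by
    rw [Complex.add_conj, ← hx]
    rw [hx2]
    push_cast
    ring
  have htc : t * (starRingEnd ℂ) t = c := by
    have h1 : (starRingEnd ℂ) t = -b - t := by rw [← htb]; ring
    rw [h1]
    linear_combination -ht2
  -- the product
  obtain ⟨n, hn, hg⟩ := hw (nf b c A B) (nf_monic hA hB) hdv
  have hg1 := norm_one hn hg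
  have hgp : aeval w (nf b c A B) = (aeval w A - t * aeval w B) *
      (aeval w A - (starRingEnd ℂ) t * aeval w B) := by
    rw [nf_aeval]
    linear_combination (aeval w A * aeval w B) * htb - (aeval w B) ^ 2 * htc
  rw [hgp, norm_mul, ← hnorm] at hg1
  have hP1 : ‖aeval w A - t * aeval w B‖ = 1 := by
    have := norm_nonneg (aeval w A - t * aeval w B)
    nlinarith
  have hP2 := hnorm.symm.trans hP1
  have hdiff : ‖(t - (starRingEnd ℂ) t) * aeval w B‖ ≤ 2 := by
    have e : (t - (starRingEnd ℂ) t) * aeval w B =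
        (aeval w A - (starRingEnd ℂ) t * aeval w B) - (aeval w A - t * aeval w B) := by ring
    rw [e]
    refine (norm_sub_le _ _).trans ?_
    rw [hP1, hP2]
    norm_num
  have hsub : ‖t - (starRingEnd ℂ) t‖ ^ 2 = 4 * c - b ^ 2 := by
    rw [Complex.sub_conj, ← hy, ← hy2, norm_mul, Complex.norm_real, Complex.norm_I, mul_one,
      Real.norm_eq_abs, sq_abs]
    ring
  rw [norm_mul] at hdiff
  by_contra h1
  push Not at h1
  have h2 : 0 ≤ ‖t - (starRingEnd ℂ) t‖ := norm_nonneg _
  have h3 : ‖t - (starRingEnd ℂ) t‖ ≤ 2 := by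
    calc ‖t - (starRingEnd ℂ) t‖ = ‖t - (starRingEnd ℂ) t‖ * 1 := (mul_one _).symm
      _ ≤ ‖t - (starRingEnd ℂ) t‖ * ‖aeval w B‖ := mul_le_mul_of_nonneg_left h1 h2
      _ ≤ 2 := hdiff
  nlinarith

section

variable {p : ℕ} [Fact p.Prime]

/-- a component given by a norm form -/
theorem norm_form {f : ℤ[X]} (hf : f.Monic) (hd : 0 < f.natDegree) {z : ℤ_[p]}
    (h : AllTor f z) {b c : ℤ} (hbc : b ^ 2 + 4 < 4 * c) {A B : ℤ[X]} (hA : A.Monic)
    (hB : B.degree < A.degree) (hdv : nf b c A B ∣ f) :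
    aeval z B = 0 ∧ ∃ n : ℕ, 0 < n ∧ aeval z A ^ n = 1 := by
  obtain ⟨w, hw, hcj⟩ := exists_complex hf hd h.1
  have hwi := hw.integral hf hd
  have hB0 : aeval z B = 0 := by
    have h1 : IsIntegral ℤ ((aeval z B : ℤ_[p]) : ℚ_[p]) := by
      rw [coe_aeval]
      exact (IsIntegral.of_mem_of_fg _ ((h.1.coe.integral hf hd).fg_adjoin_singleton) _
          (by rw [Algebra.adjoin_singleton_eq_range_aeval]; exact ⟨_, rfl⟩))
    have h2 := zero_of_small h1 (fun y' hy' => by
      obtain ⟨w', hw', e⟩ := lift_conj hcj hwi B (cj_coe.1 hy')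
      rw [← e]
      exact small_B hbc hA hB hdv (hw'.isTor h.1) (h.2 w' hw'))
    exact PadicInt.ext (by rw [h2]; simp)
  refine ⟨hB0, ?_⟩
  obtain ⟨n, hn, h1⟩ := h.1 (nf b c A B) (nf_monic hA hB) hdv
  rw [nf_aeval, hB0] at h1
  refine ⟨2 * n, by omega, ?_⟩
  rw [pow_mul, ← h1]
  ring

end

end Pool.Agent.H76K
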