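import Pool.Agent.H76K.L

/-!
# Counting norm forms with a torsion point
-/

set_option autoImplicit false
set_option linter.all false

open Polynomial
open scoped Classical

namespace Pool.Agent.H76K

theorem nf_natDegree {b c : ℤ} {A B : ℤ[X]} (hA : A.Monic) (hB : B.degree < A.degree) :
    (nf b c A B).natDegree = 2 * A.natDegree := by
  have hm := nf_monic (b := b) (c := c) hA hB
  by_cases hB0 : B = 0
  · unfold nf
    rw [hB0]
    simp only [mul_zero, add_zero, ne_eq, OfNat.ofNat_ne_zero, not_false_eq_true, zero_pow]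
    rw [hA.natDegree_pow]
  have hA0 : A ≠ 0 := hA.ne_zero
  have h3 : B.natDegree < A.natDegree := by
    rw [degree_eq_natDegree hA0, degree_eq_natDegree hB0] at hB
    exact_mod_cast hB
  have h1 : nf b c A B = A ^ 2 + (C b * A * B + C c * B ^ 2) := by unfold nf; ring
  rw [h1, natDegree_add_eq_left_of_natDegree_lt, hA.natDegree_pow]
  rw [hA.natDegree_pow]
  refine (natDegree_add_le _ _).trans_lt (max_lt ?_ ?_)
  · refine (natDegree_mul_le).trans_lt ?_
    have h4 : (C b * A).natDegree ≤ A.natDegree := natDegree_C_mul_le _ _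
    omega
  · refine (natDegree_C_mul_le _ _).trans_lt ?_
    refine (natDegree_pow_le).trans_lt ?_
    omega

/-- the polynomial with the coefficients `d` -/
noncomputable def lo {b : ℕ} (d : Fin b → ℤ) : ℤ[X] := ∑ i : Fin b, C (d i) * X ^ (i : ℕ)

theorem lo_degree {b : ℕ} (d : Fin b → ℤ) : (lo d).degree < b := by
  unfold lo
  refine (degree_sum_le _ _).trans_lt ?_
  rw [Finset.sup_lt_iff (by exact WithBot.bot_lt_coe b)]
  intro i _
  refine (degree_C_mul_X_pow_le _ _).trans_lt ?_
  exact_mod_cast i.2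

theorem lo_coeff {b : ℕ} (d : Fin b → ℤ) (i : Fin b) : (lo d).coeff i = d i := by
  unfold lo
  rw [finset_sum_coeff, Finset.sum_eq_single i]
  · simp
  · intro j _ hj
    rw [coeff_C_mul, coeff_X_pow, if_neg, mul_zero]
    intro h
    exact hj (Fin.ext h.symm)
  · intro h
    exact absurd (Finset.mem_univ i) h

theorem lo_ne {b : ℕ} {d : Fin b → ℤ} (h : d ≠ 0) : lo d ≠ 0 := by
  intro h0
  apply h
  funext i
  rw [← lo_coeff d i, h0, coeff_zero]
  rfl

theorem lo_natDegree {b : ℕ} (d : Fin (b + 1) → ℤ) : (lo d).natDegree ≤ b := by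
  by_cases h0 : lo d = 0
  · rw [h0, natDegree_zero]; omega
  · have h1 := lo_degree d
    rw [degree_eq_natDegree h0] at h1
    have h2 : (lo d).natDegree < b + 1 := by exact_mod_cast h1
    omega

/-- a common torsion point -/
def Bad {a b : ℕ} (c : Fin a → ℤ) (d : Fin b → ℤ) : Prop :=
  ∃ w : ℂ, aeval w (lo d) = 0 ∧ ∃ n : ℕ, 0 < n ∧ aeval w (mo c) ^ n = 1

theorem card_bad_one (a b H : ℕ) (d : Fin (b + 1) → ℤ) (hd : d ≠ 0) :
    ((bx (a + 1) H).filter fun c => Bad c d).card ≤ b * (2 * b).factorial * (2 * H + 1) ^ a := by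
  set K := (2 * b).factorial with hK
  have hKpos : 0 < K := Nat.factorial_pos _
  have hR := lo_ne hd
  have hRd := lo_natDegree d
  let Q : ℂ[X] := (lo d).map (algebraMap ℤ ℂ)
  have hQ : Q ≠ 0 := (Polynomial.map_ne_zero_iff (algebraMap ℤ ℂ).injective_int).2 hR
  let Z : Finset ℂ := Q.roots.toFinset
  have hZ : Z.card ≤ b := (Multiset.toFinset_card_le _).trans ((card_roots' _).trans
    (natDegree_map_le.trans hRd))
  let M : Finset ℂ := (nthRoots K (1 : ℂ)).toFinset
  have hM : M.card ≤ K := (Multiset.toFinset_card_le _).trans (card_nthRoots K 1)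
  have hT : (Z ×ˢ M).card ≤ b * K := by
    rw [Finset.card_product]
    exact Nat.mul_le_mul hZ hM
  have hsub : ((bx (a + 1) H).filter fun c => Bad c d) ⊆
      (Z ×ˢ M).biUnion fun t => (bx (a + 1) H).filter fun c => aeval t.1 (mo c) = t.2 := by
    intro c hc
    obtain ⟨hc1, w, hw, n, hn, h1⟩ := Finset.mem_filter.1 hc
    rw [Finset.mem_biUnion]
    have h2 := pow_fact hR hw hRd hn h1
    refine ⟨(w, aeval w (mo c)), Finset.mem_product.2 ⟨?_, ?_⟩, Finset.mem_filter.2 ⟨hc1, rfl⟩⟩
    · rw [Multiset.mem_toFinset, mem_roots hQ, IsRoot.def, eval_map_algebraMap]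
      exact hw
    · rw [Multiset.mem_toFinset, mem_nthRoots hKpos]
      exact h2
  refine (Finset.card_le_card hsub).trans (Finset.card_biUnion_le.trans ?_)
  refine (Finset.sum_le_sum fun t _ => card_cond a H t.1 t.2).trans ?_
  rw [Finset.sum_const, smul_eq_mul]
  exact Nat.mul_le_mul_right _ hT

theorem card_bad (a b H : ℕ) (hab : 0 < a) :
    ((bx a H ×ˢ bx (b + 1) H).filter fun c => Bad c.1 c.2).card ≤
      (1 + b * (2 * b).factorial) * (2 * H + 1) ^ (a + b) := by
  obtain ⟨a, rfl⟩ : ∃ a', a = a' + 1 := ⟨a - 1, by omega⟩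
  have h1 : ((bx (a + 1) H ×ˢ bx (b + 1) H).filter fun c => Bad c.1 c.2) ⊆
      ((bx (a + 1) H).image fun c => (c, (0 : Fin (b + 1) → ℤ))) ∪
      ((bx (b + 1) H).filter fun d => d ≠ 0).biUnion fun d => ((bx (a + 1) H).filter fun c =>
        Bad c d).image fun c => (c, d) := by
    rintro ⟨c, d⟩ hcd
    obtain ⟨h2, h3⟩ := Finset.mem_filter.1 hcd
    obtain ⟨h4, h5⟩ := Finset.mem_product.1 h2
    rw [Finset.mem_union]
    by_cases h0 : d = 0
    · left
      rw [h0]
      exact Finset.mem_image.2 ⟨c, h4, rfl⟩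
    · right
      rw [Finset.mem_biUnion]
      exact ⟨d, Finset.mem_filter.2 ⟨h5, h0⟩, Finset.mem_image.2
        ⟨c, Finset.mem_filter.2 ⟨h4, h3⟩, rfl⟩⟩
  refine (Finset.card_le_card h1).trans ((Finset.card_union_le _ _).trans ?_)
  have h2 : ((bx (a + 1) H).image fun c => (c, (0 : Fin (b + 1) → ℤ))).card ≤
      (2 * H + 1) ^ (a + 1 + b) := by
    refine Finset.card_image_le.trans ?_
    rw [card_bx]
    exact Nat.pow_le_pow_right (by omega) (by omega)
  have h3 : (((bx (b + 1) H).filter fun d => d ≠ 0).biUnion fun d =>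
      ((bx (a + 1) H).filter fun c => Bad c d).image fun c => (c, d)).card ≤
      b * (2 * b).factorial * (2 * H + 1) ^ (a + 1 + b) := by
    refine Finset.card_biUnion_le.trans ?_
    refine (Finset.sum_le_sum fun d hd => Finset.card_image_le.trans
      (card_bad_one a b H d (Finset.mem_filter.1 hd).2)).trans ?_
    rw [Finset.sum_const, smul_eq_mul]
    have h4 : ((bx (b + 1) H).filter fun d => d ≠ 0).card ≤ (2 * H + 1) ^ (b + 1) := by
      rw [← card_bx]
      exact Finset.card_filter_le _ _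
    calc _ ≤ (2 * H + 1) ^ (b + 1) * (b * (2 * b).factorial * (2 * H + 1) ^ a) :=
          Nat.mul_le_mul_right _ h4
      _ = b * (2 * b).factorial * (2 * H + 1) ^ (a + 1 + b) := by ring
  calc _ ≤ (2 * H + 1) ^ (a + 1 + b) + b * (2 * b).factorial * (2 * H + 1) ^ (a + 1 + b) :=
        Nat.add_le_add h2 h3
    _ = _ := by ring

end Pool.Agent.H76K
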