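import Pool.Agent.H76K.M

/-!
# Components given by norm forms of imaginary quadratic fields, II
-/

set_option autoImplicit false
set_option linter.all false

open Polynomial NumberField NumberField.IsCMField NumberField.Units
open scoped Classical IntermediateField

namespace Pool.Agent.H76K

open Pool.Agent.N874.WG

theorem form_coord {b c : ℤ} {t α β : ℂ} {x y : ℝ} (hx : x = t.re) (hy : y = t.im)
    (htb : t + (starRingEnd ℂ) t = -b) (htc : t * (starRingEnd ℂ) t = c) (hx2 : 2 * x = -b)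
    (hy2 : 4 * y ^ 2 = 4 * c - b ^ 2)
    (s1 : Complex.normSq (α - t * β) = 1) (s2 : Complex.normSq (α - (starRingEnd ℂ) t * β) = 1) :
    Complex.normSq α + b * (α.re * β.re + α.im * β.im) + c * Complex.normSq β = 1 := by
  rw [Complex.normSq_apply] at s1 s2 ⊢
  rw [Complex.normSq_apply]
  simp only [Complex.sub_re, Complex.sub_im, Complex.mul_re, Complex.mul_im, Complex.conj_re,
    Complex.conj_im] at s1 s2
  rw [← hx, ← hy] at s1 s2
  have hb : (b : ℝ) = -2 * x := by linarith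
  have hc : (c : ℝ) = x ^ 2 + y ^ 2 := by
    rw [hb] at hy2
    linear_combination (-1 / 4) * hy2
  rw [hb, hc]
  linear_combination (s1 + s2) / 2

theorem form_eq {f : ℤ[X]} {b c : ℤ} (hbc : b ^ 2 < 4 * c) {A B : ℤ[X]} (hA : A.Monic)
    (hB : B.degree < A.degree) (hdv : nf b c A B ∣ f) {w : ℂ} (hw : IsTor f w)
    (h : CMTor f w) :
    Complex.normSq (aeval w A) + b * ((aeval w A).re * (aeval w B).re +
      (aeval w A).im * (aeval w B).im) + c * Complex.normSq (aeval w B) = 1 := by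
  obtain ⟨K, _, _, _, θ, hroot, hθ⟩ := exists_quad (b := b) (c := c) hbc
  obtain ⟨τ⟩ : Nonempty (K →+* ℂ) := inferInstance
  obtain ⟨P, hP⟩ : ∃ P : (𝓞 K)[X], P = A.map (algebraMap ℤ (𝓞 K)) -
    C θ * B.map (algebraMap ℤ (𝓞 K)) := ⟨_, rfl⟩
  have hθ2 : θ ^ 2 + b * θ + c = 0 := by
    have := hroot
    simpa using this
  have hPm : P.Monic := by
    rw [hP]
    refine (hA.map _).sub_of_left ?_
    rw [hA.degree_map]
    refine lt_of_le_of_lt ?_ hB
    refine (degree_mul_le _ _).trans ?_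
    calc (C θ).degree + (B.map (algebraMap ℤ (𝓞 K))).degree
        ≤ 0 + (B.map (algebraMap ℤ (𝓞 K))).degree := add_le_add_left degree_C_le _
      _ = (B.map (algebraMap ℤ (𝓞 K))).degree := zero_add _
      _ ≤ B.degree := degree_map_le
  have hPf : P ∣ f.map (algebraMap ℤ (𝓞 K)) := by
    refine Dvd.dvd.trans ?_ (Polynomial.map_dvd _ hdv)
    refine ⟨A.map (algebraMap ℤ (𝓞 K)) + C (b + θ) * B.map (algebraMap ℤ (𝓞 K)), ?_⟩
    rw [hP]
    unfold nf
    rw [Polynomial.map_add, Polynomial.map_add, Polynomial.map_mul, Polynomial.map_mul,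
      Polynomial.map_mul, Polynomial.map_pow, Polynomial.map_pow, map_C, map_C]
    have e1 : (algebraMap ℤ (𝓞 K)) b = (b : 𝓞 K) := rfl
    have e2 : (algebraMap ℤ (𝓞 K)) c = (c : 𝓞 K) := rfl
    have e3 : C (θ ^ 2 + b * θ + c) = (0 : (𝓞 K)[X]) := by rw [hθ2, C_0]
    rw [e1, e2]
    rw [C_add, C_add, C_pow, C_mul] at e3
    rw [C_add]
    linear_combination (B.map (algebraMap ℤ (𝓞 K))) ^ 2 * e3
  have hnorm := h.norm τ hPm hPf
  obtain ⟨t, ht⟩ : ∃ t, t = τ (θ : K) := ⟨_, rfl⟩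
  have hval : ∀ Q : ℤ[X], (Q.map (algebraMap ℤ (𝓞 K))).eval₂ (τ.comp (algebraMap (𝓞 K) K)) w =
      aeval w Q := by
    intro Q
    rw [eval₂_map, aeval_def]
    congr 1
    exact RingHom.ext_int _ _
  have hmc : ∀ Q : ℤ[X], ((Q.map (algebraMap ℤ (𝓞 K))).map (cc K)) =
      Q.map (algebraMap ℤ (𝓞 K)) := by
    intro Q
    rw [Polynomial.map_map]
    congr 1
    exact RingHom.ext_int _ _
  have e1 : ev τ P w = aeval w A - t * aeval w B := by
    unfold ev
    rw [hP, eval₂_sub, eval₂_mul, eval₂_C, hval, hval, ht]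
    rfl
  have e2 : ev τ (P.map (cc K)) w = aeval w A - (starRingEnd ℂ) t * aeval w B := by
    unfold ev
    rw [hP, Polynomial.map_sub, Polynomial.map_mul, map_C, hmc, hmc, eval₂_sub, eval₂_mul,
      eval₂_C, hval, hval, ht]
    congr 2
    exact complexEmbedding_complexConj K τ (θ : K)
  rw [e1, e2] at hnorm
  have ht2 : t ^ 2 + b * t + c = 0 := by
    have h1 := congrArg (τ.comp (algebraMap (𝓞 K) K)) hθ2
    rw [map_add, map_add, map_mul, map_pow, map_intCast, map_intCast, map_zero] at h1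
    rw [ht]
    exact h1
  have hbc' : ((b : ℝ)) ^ 2 < 4 * c := by exact_mod_cast hbc
  -- real and imaginary parts of `t`
  have hre := congrArg Complex.re ht2
  have him := congrArg Complex.im ht2
  simp only [sq, Complex.add_re, Complex.mul_re, Complex.add_im, Complex.mul_im,
    Complex.intCast_re, Complex.intCast_im, Complex.zero_re, Complex.zero_im] at hre him
  obtain ⟨x, hx⟩ : ∃ x, x = t.re := ⟨_, rfl⟩
  obtain ⟨y, hy⟩ : ∃ y, y = t.im := ⟨_, rfl⟩
  rw [← hx, ← hy] at hre him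
  have hy0 : y ≠ 0 := by
    intro h0
    rw [h0] at hre
    nlinarith [sq_nonneg (2 * x + b)]
  have hx2 : 2 * x = -b := by
    have h1 : y * (2 * x + b) = 0 := by linarith
    have := (mul_eq_zero.1 h1).resolve_left hy0
    linarith
  have hy2 : 4 * y ^ 2 = 4 * c - b ^ 2 := by
    have h1 : (2 * x) ^ 2 = b ^ 2 := by rw [hx2]; ring
    nlinarith
  have htb : t + (starRingEnd ℂ) t = -b := by
    rw [Complex.add_conj, ← hx]
    rw [hx2]
    push_cast
    ring
  have htc : t * (starRingEnd ℂ) t = c := by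
    have h1 : (starRingEnd ℂ) t = -b - t := by rw [← htb]; ring
    rw [h1]
    linear_combination -ht2
  -- the product
  obtain ⟨n, hn, hg⟩ := hw (nf b c A B) (nf_monic hA hB) hdv
  have hg1 := norm_one hn hg
  have hgp : aeval w (nf b c A B) = (aeval w A - t * aeval w B) *
      (aeval w A - (starRingEnd ℂ) t * aeval w B) := by
    rw [nf_aeval]
    linear_combination (aeval w A * aeval w B) * htb - (aeval w B) ^ 2 * htc
  rw [hgp, norm_mul, ← hnorm] at hg1
  have hP1 : ‖aeval w A - t * aeval w B‖ = 1 := by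
    have := norm_nonneg (aeval w A - t * aeval w B)
    nlinarith
  have hP2 := hnorm.symm.trans hP1
  have s1 : Complex.normSq (aeval w A - t * aeval w B) = 1 := by
    rw [Complex.normSq_eq_norm_sq, hP1]; norm_num
  have s2 : Complex.normSq (aeval w A - (starRingEnd ℂ) t * aeval w B) = 1 := by
    rw [Complex.normSq_eq_norm_sq, hP2]; norm_num
  exact form_coord hx hy htb htc hx2 hy2 s1 s2


section

variable {p : ℕ} [Fact p.Prime]

theorem zero_at {f : ℤ[X]} (hf : f.Monic) (hd : 0 < f.natDegree) {z : ℤ_[p]}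
    (h : AllTor f z) {U : ℤ[X]}
    (hU : ∀ w : ℂ, IsTor f w → CMTor f w → ‖aeval w U‖ < 1) : aeval z U = 0 := by
  obtain ⟨w, hw, hcj⟩ := exists_complex hf hd h.1
  have hwi := hw.integral hf hd
  have h1 : IsIntegral ℤ ((aeval z U : ℤ_[p]) : ℚ_[p]) := by
    rw [coe_aeval]
    exact (IsIntegral.of_mem_of_fg _ ((h.1.coe.integral hf hd).fg_adjoin_singleton) _
        (by rw [Algebra.adjoin_singleton_eq_range_aeval]; exact ⟨_, rfl⟩))
  have h2 := zero_of_small h1 (fun y' hy' => by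
    obtain ⟨w', hw', e⟩ := lift_conj hcj hwi U (cj_coe.1 hy')
    rw [← e]
    exact hU w' (hw'.isTor h.1) (h.2 w' hw'))
  exact PadicInt.ext (by rw [h2]; simp)

theorem norm_lt_of_normSq {x : ℂ} (h : Complex.normSq x < 1) : ‖x‖ < 1 := by
  rw [Complex.normSq_eq_norm_sq] at h
  have := norm_nonneg x
  nlinarith

/-- discriminant `-4` -/
theorem form_four {f : ℤ[X]} (hf : f.Monic) (hd : 0 < f.natDegree) {z : ℤ_[p]}
    (h : AllTor f z) {A B : ℤ[X]} (hA : A.Monic)
    (hB : B.degree < A.degree) (hdv : nf 0 1 A B ∣ f) :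
    (aeval z B = 0 ∧ ∃ n : ℕ, 0 < n ∧ aeval z A ^ n = 1) ∨
      (aeval z A = 0 ∧ ∃ n : ℕ, 0 < n ∧ aeval z B ^ n = 1) := by
  have h0 : aeval z (A * B) = 0 := by
    refine zero_at hf hd h fun w hw hcm => norm_lt_of_normSq ?_
    have h1 := form_eq (b := 0) (c := 1) (by norm_num) hA hB hdv hw hcm
    rw [map_mul, Complex.normSq_mul]
    have h2 := Complex.normSq_nonneg (aeval w A)
    have h3 := Complex.normSq_nonneg (aeval w B)
    simp only [Int.cast_zero, zero_mul, add_zero, Int.cast_one, one_mul] at h1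
    nlinarith [sq_nonneg (Complex.normSq (aeval w A) - Complex.normSq (aeval w B))]
  obtain ⟨n, hn, h1⟩ := h.1 (nf 0 1 A B) (nf_monic hA hB) hdv
  rw [nf_aeval] at h1
  rw [map_mul, mul_eq_zero] at h0
  rcases h0 with h0 | h0
  · right
    refine ⟨h0, 2 * n, by omega, ?_⟩
    rw [h0] at h1
    rw [pow_mul, ← h1]
    push_cast
    ring
  · left
    refine ⟨h0, 2 * n, by omega, ?_⟩
    rw [h0] at h1
    rw [pow_mul, ← h1]
    push_cast
    ring

theorem amgm {x y s : ℝ} (hx : 0 ≤ x) (hy : 0 ≤ y) (hs : 0 ≤ s) (h : x + y + s = 2) :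
    x * y * s < 1 := by
  have h1 : x * y ≤ ((2 - s) / 2) ^ 2 := by nlinarith [sq_nonneg (x - y)]
  have h2 : s ≤ 2 := by linarith
  have h3 : x * y * s ≤ ((2 - s) / 2) ^ 2 * s := mul_le_mul_of_nonneg_right h1 hs
  have h4 : s * (2 - s) ≤ 1 := by nlinarith [sq_nonneg (s - 1)]
  have h5 : ((2 - s) / 2) ^ 2 * s = (s * (2 - s)) * ((2 - s) / 4) := by ring
  have h6 : (s * (2 - s)) * ((2 - s) / 4) ≤ 1 * ((2 - s) / 4) :=
    mul_le_mul_of_nonneg_right h4 (by linarith)
  linarith

/-- discriminant `-3` -/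
theorem form_three {f : ℤ[X]} (hf : f.Monic) (hd : 0 < f.natDegree) {z : ℤ_[p]}
    (h : AllTor f z) {A B : ℤ[X]} (hA : A.Monic)
    (hB : B.degree < A.degree) (hdv : nf 1 1 A B ∣ f) :
    (aeval z B = 0 ∧ ∃ n : ℕ, 0 < n ∧ aeval z A ^ n = 1) ∨
      (aeval z A = 0 ∧ ∃ n : ℕ, 0 < n ∧ aeval z B ^ n = 1) ∨
      (aeval z A + aeval z B = 0 ∧ ∃ n : ℕ, 0 < n ∧ aeval z A ^ n = 1) := by
  have h0 : aeval z (A * B * (A + B)) = 0 := by
    refine zero_at hf hd h fun w hw hcm => norm_lt_of_normSq ?_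
    have h1 := form_eq (b := 1) (c := 1) (by norm_num) hA hB hdv hw hcm
    simp only [map_mul, map_add]
    refine amgm (Complex.normSq_nonneg _) (Complex.normSq_nonneg _) (Complex.normSq_nonneg _) ?_
    simp only [Complex.normSq_apply, Complex.add_re, Complex.add_im, Int.cast_one, one_mul] at h1 ⊢
    linarith
  obtain ⟨n, hn, h1⟩ := h.1 (nf 1 1 A B) (nf_monic hA hB) hdv
  rw [nf_aeval] at h1
  rw [map_mul, map_mul, mul_eq_zero, mul_eq_zero, map_add] at h0
  rcases h0 with (h0 | h0) | h0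
  · right; left
    refine ⟨h0, 2 * n, by omega, ?_⟩
    rw [h0] at h1
    rw [pow_mul, ← h1]
    push_cast
    ring
  · left
    refine ⟨h0, 2 * n, by omega, ?_⟩
    rw [h0] at h1
    rw [pow_mul, ← h1]
    push_cast
    ring
  · right; right
    refine ⟨h0, 2 * n, by omega, ?_⟩
    have h2 : aeval z B = -aeval z A := eq_neg_of_add_eq_zero_right h0
    rw [h2] at h1
    rw [pow_mul, ← h1]
    push_cast
    ring

end

end Pool.Agent.H76K
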