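import Pool.Agent.H76K.N

/-!
# Counting norm forms with a torsion point, II
-/

set_option autoImplicit false
set_option linter.all false

open Polynomial
open scoped Classical

namespace Pool.Agent.H76K

theorem aeval_lo {b : ℕ} (d : Fin b → ℤ) (w : ℂ) :
    aeval w (lo d) = ∑ i : Fin b, (d i : ℂ) * w ^ (i : ℕ) := by
  unfold lo
  rw [map_sum]
  refine Finset.sum_congr rfl fun i _ => ?_
  simp

theorem card_cond_lo (b H : ℕ) (w ζ : ℂ) :
    ((bx (b + 1) H).filter fun d => aeval w (lo d) = ζ).card ≤ (2 * H + 1) ^ b := by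
  rw [← card_bx]
  refine Finset.card_le_card_of_injOn (fun d i => d i.succ) ?_ ?_
  · intro d hd
    have h1 := (Finset.mem_filter.1 (Finset.mem_coe.1 hd)).1
    rw [bx, Fintype.mem_piFinset] at h1
    rw [Finset.mem_coe, bx, Fintype.mem_piFinset]
    exact fun i => h1 i.succ
  · intro d hd e he hde
    have h1 := (Finset.mem_filter.1 (Finset.mem_coe.1 hd)).2
    have h2 := (Finset.mem_filter.1 (Finset.mem_coe.1 he)).2
    rw [aeval_lo, Fin.sum_univ_succ] at h1 h2
    have h3 : ∀ i : Fin b, d i.succ = e i.succ := fun i => congrFun hde i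
    have h4 : (d 0 : ℂ) = e 0 := by
      simp only [h3] at h1
      have h5 := h1.trans h2.symm
      simpa using h5
    funext i
    refine Fin.cases ?_ (fun j => h3 j) i
    exact_mod_cast h4

/-- a root of `A` at which `B` is a root of unity -/
def Bad2 {a b : ℕ} (c : Fin a → ℤ) (d : Fin b → ℤ) : Prop :=
  ∃ w : ℂ, aeval w (mo c) = 0 ∧ ∃ n : ℕ, 0 < n ∧ aeval w (lo d) ^ n = 1

theorem card_bad2_one (a b H : ℕ) (c : Fin a → ℤ) :
    ((bx (b + 1) H).filter fun d => Bad2 c d).card ≤ a * (2 * a).factorial * (2 * H + 1) ^ b := by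
  set K := (2 * a).factorial with hK
  have hKpos : 0 < K := Nat.factorial_pos _
  have hR : mo c ≠ 0 := (mo_monic c).ne_zero
  have hRd : (mo c).natDegree ≤ a := (mo_natDegree c).le
  let Q : ℂ[X] := (mo c).map (algebraMap ℤ ℂ)
  have hQ : Q ≠ 0 := (Polynomial.map_ne_zero_iff (algebraMap ℤ ℂ).injective_int).2 hR
  let Z : Finset ℂ := Q.roots.toFinset
  have hZ : Z.card ≤ a := (Multiset.toFinset_card_le _).trans ((card_roots' _).trans
    (natDegree_map_le.trans hRd))
  let M : Finset ℂ := (nthRoots K (1 : ℂ)).toFinset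
  have hM : M.card ≤ K := (Multiset.toFinset_card_le _).trans (card_nthRoots K 1)
  have hT : (Z ×ˢ M).card ≤ a * K := by
    rw [Finset.card_product]
    exact Nat.mul_le_mul hZ hM
  have hsub : ((bx (b + 1) H).filter fun d => Bad2 c d) ⊆
      (Z ×ˢ M).biUnion fun t => (bx (b + 1) H).filter fun d => aeval t.1 (lo d) = t.2 := by
    intro d hd
    obtain ⟨hd1, w, hw, n, hn, h1⟩ := Finset.mem_filter.1 hd
    rw [Finset.mem_biUnion]
    have h2 := pow_fact hR hw hRd hn h1
    refine ⟨(w, aeval w (lo d)), Finset.mem_product.2 ⟨?_, ?_⟩, Finset.mem_filter.2 ⟨hd1, rfl⟩⟩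
    · rw [Multiset.mem_toFinset, mem_roots hQ, IsRoot.def, eval_map_algebraMap]
      exact hw
    · rw [Multiset.mem_toFinset, mem_nthRoots hKpos]
      exact h2
  refine (Finset.card_le_card hsub).trans (Finset.card_biUnion_le.trans ?_)
  refine (Finset.sum_le_sum fun t _ => card_cond_lo b H t.1 t.2).trans ?_
  rw [Finset.sum_const, smul_eq_mul]
  exact Nat.mul_le_mul_right _ hT

/-- general boxes -/
theorem card_bad2 (a b G H : ℕ) :
    ((bx a G ×ˢ bx (b + 1) H).filter fun c => Bad2 c.1 c.2).card ≤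
      (2 * G + 1) ^ a * (a * (2 * a).factorial * (2 * H + 1) ^ b) := by
  have h1 : ((bx a G ×ˢ bx (b + 1) H).filter fun c => Bad2 c.1 c.2) ⊆
      (bx a G).biUnion fun c => ((bx (b + 1) H).filter fun d => Bad2 c d).image
        fun d => (c, d) := by
    rintro ⟨c, d⟩ hcd
    obtain ⟨h2, h3⟩ := Finset.mem_filter.1 hcd
    obtain ⟨h4, h5⟩ := Finset.mem_product.1 h2
    rw [Finset.mem_biUnion]
    exact ⟨c, h4, Finset.mem_image.2 ⟨d, Finset.mem_filter.2 ⟨h5, h3⟩, rfl⟩⟩
  refine (Finset.card_le_card h1).trans (Finset.card_biUnion_le.trans ?_)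
  refine (Finset.sum_le_sum fun c _ => Finset.card_image_le.trans
    (card_bad2_one a b H c)).trans ?_
  rw [Finset.sum_const, smul_eq_mul, card_bx]

/-- `A + B = 0` at a point at which `A` is a root of unity -/
def Bad3 {a b : ℕ} (c : Fin a → ℤ) (d : Fin b → ℤ) : Prop :=
  ∃ w : ℂ, aeval w (mo c) + aeval w (lo d) = 0 ∧ ∃ n : ℕ, 0 < n ∧ aeval w (mo c) ^ n = 1

theorem mo_coeff {a : ℕ} (c : Fin a → ℤ) (i : Fin a) : (mo c).coeff i = c i := by
  have h : mo c = X ^ a + lo c := rfl
  rw [h, coeff_add, lo_coeff, coeff_X_pow, if_neg (by have := i.2; omega), zero_add]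

theorem eq_mo {a : ℕ} {Q : ℤ[X]} (hQ : Q.Monic) (hd : Q.natDegree = a) :
    mo (fun i : Fin a => Q.coeff i) = Q := by
  have h1 := hQ.as_sum
  rw [hd] at h1
  unfold mo
  conv_rhs => rw [h1]
  rw [Finset.sum_range]

theorem card_bad3 (a b H : ℕ) (hab : b < a) :
    ((bx a H ×ˢ bx (b + 1) H).filter fun c => Bad3 c.1 c.2).card ≤
      (2 * (2 * H) + 1) ^ a * (a * (2 * a).factorial * (2 * H + 1) ^ b) := by
  refine le_trans ?_ (card_bad2 a b (2 * H) H)
  refine Finset.card_le_card_of_injOn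
    (fun c => ((fun i : Fin a => (mo c.1 + lo c.2).coeff i), c.2)) ?_ ?_
  · rintro ⟨c, d⟩ hcd
    obtain ⟨h2, w, hw, n, hn, h3⟩ := Finset.mem_filter.1 (Finset.mem_coe.1 hcd)
    obtain ⟨h4, h5⟩ := Finset.mem_product.1 h2
    have hlt : (lo d).degree < (mo c).degree := by
      refine (lo_degree d).trans_le ?_
      rw [degree_eq_natDegree (mo_monic c).ne_zero, mo_natDegree]
      exact_mod_cast hab
    have hm : (mo c + lo d).Monic := (mo_monic c).add_of_left hlt
    have hdg : (mo c + lo d).natDegree = a := by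
      rw [natDegree_add_eq_left_of_degree_lt hlt, mo_natDegree]
    rw [bx, Fintype.mem_piFinset] at h4 h5
    refine Finset.mem_coe.2 (Finset.mem_filter.2 ⟨Finset.mem_product.2 ⟨?_, ?_⟩, w, ?_, 2 * n,
      by omega, ?_⟩)
    · rw [bx, Fintype.mem_piFinset]
      intro i
      have h6 : -(H : ℤ) ≤ c i ∧ c i ≤ H := Finset.mem_Icc.1 (h4 i)
      change (mo c + lo d).coeff i ∈ _
      rw [coeff_add, mo_coeff]
      by_cases hi : (i : ℕ) < b + 1
      · have h7 := lo_coeff d ⟨i, hi⟩
        have h8 : -(H : ℤ) ≤ d ⟨i, hi⟩ ∧ d ⟨i, hi⟩ ≤ H := Finset.mem_Icc.1 (h5 ⟨i, hi⟩)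
        change (lo d).coeff i = _ at h7
        rw [h7, Finset.mem_Icc]
        push_cast
        omega
      · have h7 : (lo d).coeff i = 0 := by
          apply coeff_eq_zero_of_degree_lt
          refine (lo_degree d).trans_le ?_
          exact_mod_cast (not_lt.1 hi)
        rw [h7, Finset.mem_Icc]
        push_cast
        omega
    · rw [bx, Fintype.mem_piFinset]
      exact h5
    · change aeval w (mo fun i : Fin a => (mo c + lo d).coeff i) = 0
      rw [eq_mo hm hdg, map_add]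
      exact hw
    · change aeval w (lo d) ^ (2 * n) = 1
      have h6 : aeval w (lo d) = -aeval w (mo c) := eq_neg_of_add_eq_zero_right hw
      rw [h6, pow_mul, neg_sq, ← pow_mul, mul_comm, pow_mul, h3, one_pow]
  · rintro ⟨c, d⟩ _ ⟨c', d'⟩ _ h
    obtain ⟨h1, h2⟩ := Prod.ext_iff.1 h
    change (fun i : Fin a => (mo c + lo d).coeff i) = fun i : Fin a => (mo c' + lo d').coeff i at h1
    change d = d' at h2
    subst h2
    have h3 : c = c' := by
      funext i
      have h4 := congrFun h1 i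
      simp only [coeff_add, mo_coeff] at h4
      linarith
    rw [h3]

/-- all bad pairs -/
theorem card_all (a b H : ℕ) (hab : b < a) :
    ((bx a H ×ˢ bx (b + 1) H).filter fun c => Bad c.1 c.2 ∨ Bad2 c.1 c.2 ∨ Bad3 c.1 c.2).card ≤
      ((1 + b * (2 * b).factorial) + a * (2 * a).factorial + 2 ^ a * (a * (2 * a).factorial)) *
        (2 * H + 1) ^ (a + b) := by
  have h1 := card_bad a b H (by omega)
  have h2 := card_bad2 a b H H
  have h3 := card_bad3 a b H hab
  have h4 : (2 * (2 * H) + 1) ^ a ≤ 2 ^ a * (2 * H + 1) ^ a := by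
    rw [← mul_pow]
    exact Nat.pow_le_pow_left (by omega) a
  have hsub : ((bx a H ×ˢ bx (b + 1) H).filter fun c =>
      Bad c.1 c.2 ∨ Bad2 c.1 c.2 ∨ Bad3 c.1 c.2) ⊆
      ((bx a H ×ˢ bx (b + 1) H).filter fun c => Bad c.1 c.2) ∪
      (((bx a H ×ˢ bx (b + 1) H).filter fun c => Bad2 c.1 c.2) ∪
      ((bx a H ×ˢ bx (b + 1) H).filter fun c => Bad3 c.1 c.2)) := by
    intro c hc
    obtain ⟨h5, h6⟩ := Finset.mem_filter.1 hc
    rw [Finset.mem_union, Finset.mem_union]
    rcases h6 with h6 | h6 | h6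
    · left; exact Finset.mem_filter.2 ⟨h5, h6⟩
    · right; left; exact Finset.mem_filter.2 ⟨h5, h6⟩
    · right; right; exact Finset.mem_filter.2 ⟨h5, h6⟩
  refine (Finset.card_le_card hsub).trans ((Finset.card_union_le _ _).trans
    ((Nat.add_le_add_left (Finset.card_union_le _ _) _).trans ?_))
  refine (Nat.add_le_add h1 (Nat.add_le_add h2 (h3.trans
    (Nat.mul_le_mul_right _ h4)))).trans (le_of_eq ?_)
  rw [pow_add]
  ring

end Pool.Agent.H76K
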